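import Pool.Agent.H166R3.LN.Del

set_option autoImplicit false
set_option linter.unusedVariables false

/-! The binary expansion map from Cantor space onto a unit interval. -/

namespace Pool.Agent.H166R3.LN

open Pool.Agent.Helper743 (RecT pre join)
open Pool.Agent.H166R3.HD
open MeasureTheory Filter Topology Set
open scoped Classical

/-- the number with given leading binary digits -/
def vb (b : ℕ → Bool) : ℕ → ℕ
  | 0 => 0
  | n+1 => 2 * vb b n + (b n).toNat

lemma vb_lt (b : ℕ → Bool) (n : ℕ) : vb b n < 2^n := by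
  induction n with
  | zero => simp [vb]
  | succ n ih =>
    have : (b n).toNat ≤ 1 := Bool.toNat_le _
    rw [vb, pow_succ]; omega

lemma vb_congr {b b' : ℕ → Bool} {n : ℕ} (h : ∀ i < n, b i = b' i) : vb b n = vb b' n := by
  induction n with
  | zero => rfl
  | succ n ih => rw [vb, vb, ih fun i hi => h i (by omega), h n (by omega)]

lemma vb_inj {b b' : ℕ → Bool} {n : ℕ} (h : vb b n = vb b' n) : ∀ i < n, b i = b' i := by
  induction n with
  | zero => intro i hi; omega
  | succ n ih =>
    rw [vb, vb] at h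
    have h1 : (b n).toNat ≤ 1 := Bool.toNat_le _
    have h2 : (b' n).toNat ≤ 1 := Bool.toNat_le _
    have h3 : vb b n = vb b' n := by omega
    have h4 : (b n).toNat = (b' n).toNat := by omega
    intro i hi
    rcases Nat.lt_succ_iff_lt_or_eq.1 hi with h5 | h5
    · exact ih h3 i h5
    · subst h5
      cases hx : b i <;> cases hy : b' i <;> simp_all

lemma measurable_vb (n : ℕ) : Measurable (fun b : ℕ → Bool => vb b n) := by
  induction n with
  | zero => exact measurable_const
  | succ n ih =>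
    have h1 : Measurable (fun b : ℕ → Bool => (b n).toNat) :=
      (measurable_of_countable (fun b : Bool => b.toNat)).comp (measurable_pi_apply n)
    exact (measurable_const.mul ih).add h1

/-- dyadic approximations -/
noncomputable def ab (b : ℕ → Bool) (n : ℕ) : ℝ := (vb b n : ℝ) * (1/2)^n

lemma ab_succ (b : ℕ → Bool) (n : ℕ) : ab b (n+1) = ab b n + ((b n).toNat : ℝ) * (1/2)^(n+1) := by
  unfold ab
  rw [vb]
  push_cast
  rw [pow_succ]; ring

lemma ab_mono (b : ℕ → Bool) : Monotone (ab b) := by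
  refine monotone_nat_of_le_succ fun n => ?_
  rw [ab_succ]
  have : (0:ℝ) ≤ ((b n).toNat : ℝ) * (1/2)^(n+1) := by positivity
  linarith

lemma ab_anti (b : ℕ → Bool) : Antitone (fun n => ab b n + (1/2)^n) := by
  refine antitone_nat_of_succ_le fun n => ?_
  rw [ab_succ, pow_succ]
  have h1 : ((b n).toNat : ℝ) ≤ 1 := by exact_mod_cast Bool.toNat_le (b n)
  have h2 : (0:ℝ) < (1/2)^n := by positivity
  nlinarith

lemma ab_le (b : ℕ → Bool) (n m : ℕ) : ab b n ≤ ab b m + (1/2)^m := by
  have h2 : ∀ n : ℕ, (0:ℝ) < (1/2)^n := fun n => by positivity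
  rcases le_total n m with h | h
  · have := ab_mono b h
    linarith [h2 m]
  · have := ab_anti b h
    simp only at this
    linarith [h2 n]

/-- the number with given binary expansion -/
noncomputable def UU (b : ℕ → Bool) : ℝ := ⨆ n, ab b n

lemma ab_bdd (b : ℕ → Bool) : BddAbove (range (ab b)) :=
  ⟨ab b 0 + (1/2)^0, by rintro _ ⟨n, rfl⟩; exact ab_le b n 0⟩

lemma ab_le_UU (b : ℕ → Bool) (n : ℕ) : ab b n ≤ UU b := le_ciSup (ab_bdd b) n
lemma UU_le_ab (b : ℕ → Bool) (n : ℕ) : UU b ≤ ab b n + (1/2)^n := ciSup_le fun m => ab_le b m n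

lemma UU_nonneg (b : ℕ → Bool) : 0 ≤ UU b := by
  have := ab_le_UU b 0
  simpa [ab, vb] using this
lemma UU_le_one (b : ℕ → Bool) : UU b ≤ 1 := by
  have := UU_le_ab b 0
  simpa [ab, vb] using this

lemma measurable_UU : Measurable UU := by
  refine measurable_of_tendsto_metrizable (f := fun n b => ab b n) (fun n => ?_) ?_
  · exact ((measurable_of_countable (fun k : ℕ => (k:ℝ))).comp (measurable_vb n)).mul_const _
  · rw [tendsto_pi_nhds]
    intro b
    exact tendsto_atTop_ciSup (ab_mono b) (ab_bdd b)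

lemma vb_dec_enc (b : ℕ → Bool) (n : ℕ) : vb (dec (enc b n)) n = vb b n :=
  vb_congr (enc_eq_iff.1 (enc_dec (enc_lt b n)))

lemma cm_vb (n K : ℕ) (hK : K ≤ 2^n) : cm.real {b | vb b n < K} = (K : ℝ) / 2^n := by
  have h1 : {b : ℕ → Bool | vb b n < K} = {b | (fun l => vb (dec l) n < K) (enc b n)} := by
    ext b
    simp only [mem_ofPred_eq, vb_dec_enc]
  rw [h1, cm_encset_real n (fun l => vb (dec l) n < K)]
  congr 2
  have hinj : Set.InjOn (fun l => vb (dec l) n) (Finset.range (2^n) : Set ℕ) := by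
    intro l hl l' hl' h
    have h2 := enc_congr (vb_inj h)
    rw [Finset.coe_range, mem_Iio] at hl hl'
    rwa [enc_dec hl, enc_dec hl'] at h2
  have himg : (Finset.range (2^n)).image (fun l => vb (dec l) n) = Finset.range (2^n) := by
    refine Finset.eq_of_subset_of_card_le ?_ ?_
    · intro x hx
      obtain ⟨l, _, rfl⟩ := Finset.mem_image.1 hx
      exact Finset.mem_range.2 (vb_lt _ _)
    · rw [Finset.card_image_of_injOn hinj]
  have h3 : ((Finset.range (2^n)).filter (fun x => x < K)).card = K := by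
    have : (Finset.range (2^n)).filter (fun x => x < K) = Finset.range K := by
      ext x; simp only [Finset.mem_filter, Finset.mem_range]; omega
    rw [this, Finset.card_range]
  have h4 : (Finset.range (2^n)).filter (fun x => x < K) =
      ((Finset.range (2^n)).filter (fun l => vb (dec l) n < K)).image (fun l => vb (dec l) n) := by
    conv_lhs => rw [← himg]
    rw [Finset.filter_image]
  rw [h4, Finset.card_image_of_injOn (hinj.mono (by
    intro x hx
    simp only [Finset.coe_filter, mem_ofPred_eq] at hx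
    exact hx.1))] at h3
  convert h3

lemma cm_UU {t : ℝ} (h0 : 0 ≤ t) (h1 : t < 1) : cm.real {b | UU b ≤ t} = t := by
  have key : ∀ n : ℕ, |cm.real {b | UU b ≤ t} - t| ≤ (1/2)^n := by
    intro n
    have hp : (0:ℝ) < 2^n := by positivity
    set K := ⌊t * 2^n⌋₊ with hK
    have hK1 : (K : ℝ) ≤ t * 2^n := Nat.floor_le (by positivity)
    have hK2 : t * 2^n < K + 1 := Nat.lt_floor_add_one _
    have hK3 : K < 2^n := by
      have : (K : ℝ) < 2^n := lt_of_le_of_lt hK1 (by nlinarith)
      exact_mod_cast this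
    have e1 : cm.real {b | UU b ≤ t} ≤ ((K + 1 : ℕ) : ℝ) / 2^n := by
      rw [← cm_vb n (K+1) (by omega)]
      refine measureReal_mono ?_
      intro b hb
      simp only [mem_ofPred_eq] at hb ⊢
      have h2 := (ab_le_UU b n).trans hb
      unfold ab at h2
      have h3 : (vb b n : ℝ) ≤ t * 2^n := by
        have : (vb b n : ℝ) * (1/2)^n * 2^n ≤ t * 2^n := by nlinarith
        rwa [mul_assoc, ← mul_pow, show (1/2 * 2 : ℝ) = 1 by norm_num, one_pow, mul_one] at this
      have h4 : (vb b n : ℝ) < ((K+1 : ℕ) : ℝ) := by push_cast; linarith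
      exact_mod_cast h4
    have e2 : ((K : ℕ) : ℝ) / 2^n ≤ cm.real {b | UU b ≤ t} := by
      rw [← cm_vb n K (by omega)]
      refine measureReal_mono ?_
      intro b hb
      simp only [mem_ofPred_eq] at hb ⊢
      refine (UU_le_ab b n).trans ?_
      unfold ab
      have h3 : (vb b n : ℝ) + 1 ≤ K := by exact_mod_cast hb
      have h5 : (vb b n : ℝ) + 1 ≤ t * 2^n := h3.trans hK1
      have h6 : (vb b n : ℝ) * (1/2)^n + (1/2)^n = (vb b n + 1) * (1/2)^n := by ring
      rw [h6]
      have h7 : t = t * 2^n * (1/2)^n := by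
        rw [mul_assoc, ← mul_pow, show (2 * (1/2) : ℝ) = 1 by norm_num, one_pow, mul_one]
      rw [h7]
      exact mul_le_mul_of_nonneg_right h5 (by positivity)
    have h8 : t * 2^n / 2^n = t := by field_simp
    have h9 : (1/2:ℝ)^n = 1 / 2^n := by rw [one_div_pow]
    rw [abs_le, h9]
    constructor
    · have : t - 1/2^n ≤ (K:ℝ)/2^n := by
        rw [← h8, ← sub_div]
        rw [div_le_div_iff_of_pos_right hp]; linarith
      linarith
    · have : ((K+1 : ℕ):ℝ)/2^n ≤ t + 1/2^n := by
        rw [← h8, ← add_div]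
        rw [div_le_div_iff_of_pos_right hp]; push_cast; linarith
      linarith
  have h2 : |cm.real {b | UU b ≤ t} - t| ≤ 0 :=
    ge_of_tendsto' (tendsto_pow_atTop_nhds_zero_of_lt_one (by norm_num) (by norm_num)) key
  have h3 := abs_nonpos_iff.1 h2
  linarith

/-- the expansion map onto the unit interval at an integer -/
noncomputable def beta (k : ℤ) (b : ℕ → Bool) : ℝ := k + UU b

lemma measurable_beta (k : ℤ) : Measurable (beta k) := measurable_const.add measurable_UU

lemma map_beta (k : ℤ) : cm.map (beta k) = volume.restrict (Icc (k:ℝ) (k+1)) := by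
  have : IsProbabilityMeasure (cm.map (beta k)) :=
    Measure.isProbabilityMeasure_map (measurable_beta k).aemeasurable
  refine Measure.ext_of_Iic _ _ fun t => ?_
  rw [Measure.map_apply (measurable_beta k) measurableSet_Iic,
    Measure.restrict_apply measurableSet_Iic]
  have h1 : Iic t ∩ Icc (k:ℝ) (k+1) = Icc (k:ℝ) (min (k+1) t) := by
    ext x; simp only [mem_inter_iff, mem_Iic, mem_Icc, le_min_iff]; tauto
  rw [h1, Real.volume_Icc]
  have h2 : beta k ⁻¹' Iic t = {b | UU b ≤ t - k} := by
    ext b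
    simp only [mem_preimage, mem_Iic, mem_ofPred_eq, beta]
    constructor <;> intro h <;> linarith
  rw [h2]
  rcases lt_or_ge (t - k) 0 with h3 | h3
  · have h4 : {b | UU b ≤ t - k} = ∅ := by
      ext b
      simp only [mem_ofPred_eq, mem_empty_iff_false, iff_false, not_le]
      exact lt_of_lt_of_le h3 (UU_nonneg b)
    rw [h4, measure_empty, ENNReal.ofReal_of_nonpos]
    have := min_le_right ((k:ℝ)+1) t
    linarith
  · rcases lt_or_ge (t - k) 1 with h5 | h5
    · have h6 := cm_UU h3 h5
      rw [min_eq_right (by linarith)]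
      unfold Measure.real at h6
      rw [← h6, ENNReal.ofReal_toReal (measure_ne_top _ _)]
      rw [h6]
    · have h4 : {b | UU b ≤ t - k} = univ := by
        ext b
        simp only [mem_ofPred_eq, mem_univ, iff_true]
        exact (UU_le_one b).trans h5
      rw [h4, measure_univ, min_eq_left (by linarith)]
      simp

/-- the code of a dyadic approximation -/
def nmc (k : ℤ) (n v : ℕ) : ℕ :=
  Nat.pair (v + k.toNat * 2^n) (Nat.pair ((-k).toNat * 2^n) (2^n - 1))

lemma rat_nmc (k : ℤ) (n v : ℕ) : rat (nmc k n v) = k + v * (1/2)^n := by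
  unfold rat nmc
  simp only [Nat.unpair_pair]
  have h1 : ((k.toNat : ℝ) - ((-k).toNat : ℝ)) = k := by
    have : ((k.toNat : ℤ) - ((-k).toNat : ℤ)) = k := by omega
    exact_mod_cast this
  have h2 : ((2^n - 1 : ℕ) : ℝ) + 1 = 2^n := by
    have : 1 ≤ 2^n := Nat.one_le_two_pow
    push_cast [Nat.cast_sub this]; ring
  rw [h2]
  push_cast
  have h3 : ((v:ℝ) + k.toNat * 2^n - (-k).toNat * 2^n) = v + ((k.toNat : ℝ) - ((-k).toNat : ℝ)) * 2^n := by
    ring
  rw [h3, h1, one_div_pow]
  field_simp
  ring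

lemma isName_beta (k : ℤ) (b : ℕ → Bool) : IsName (fun n => nmc k n (vb b n)) (beta k b) := by
  intro n
  rw [rat_nmc]
  unfold beta
  have h1 := ab_le_UU b n
  have h2 := UU_le_ab b n
  unfold ab at h1 h2
  have h3 : (0:ℝ) < (1/2)^n := by positivity
  rw [abs_le]; constructor <;> linarith

/-- the value read off a list code -/
def vl (s n : ℕ) : ℕ := Nat.rec 0 (fun y ih => 2 * ih + (lget s y).unpair.2) n

lemma vl_eq (p : ℕ → ℕ) (b : ℕ → Bool) {m : ℕ} : ∀ {n : ℕ}, n ≤ m → vl (mk m (J2 p b)) n = vb b n := by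
  intro n
  induction n with
  | zero => intro _; rfl
  | succ n ih =>
    intro h
    show 2 * vl (mk m (J2 p b)) n + (lget (mk m (J2 p b)) n).unpair.2 = _
    rw [ih (by omega), lget_mk (by omega), vb]
    simp [J2]

lemma recT_vl {s n : ℕ → ℕ} (hs : RecT ∅ s) (hn : RecT ∅ n) : RecT ∅ (fun z => vl (s z) (n z)) := by
  have h1 : RecT ∅ (fun z => 2 * z.unpair.2.unpair.2 +
      (lget z.unpair.1 z.unpair.2.unpair.1).unpair.2) :=
    RecT.add (RecT.mul (recT_const 2) (RecT.snd (RecT.snd recT_id)))
      (RecT.snd (RecT.lget (RecT.fst recT_id) (RecT.fst (RecT.snd recT_id))))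
  refine RecT.congr (RecT.comp (RecT.prec (recT_const 0) h1) (RecT.pair hs hn)) fun z => ?_
  simp [vl]

/-- evaluate a relation at the point coded by the bits -/
lemma Del.bits {Q : BP} (hQ : Del Q) (k0 : ℤ) : ∃ R : BP, Del R ∧
    ∀ k p b, R k (J2 p b) ↔ Q k (fun n => nmc k0 n (vb b n)) := by
  have hφ : RecT ∅ (fun w => nmc k0 w.unpair.2.unpair.1
      (vl w.unpair.2.unpair.2 w.unpair.2.unpair.1)) := by
    unfold nmc
    have n1 := RecT.fst (O := ∅) (RecT.snd recT_id)
    have s1 := RecT.snd (O := ∅) (RecT.snd recT_id)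
    exact RecT.pair (RecT.add (recT_vl s1 n1) (RecT.mul (recT_const _) (RecT.twopow n1)))
      (RecT.pair (RecT.mul (recT_const _) (RecT.twopow n1))
        (RecT.sub (RecT.twopow n1) (recT_const 1)))
  refine ⟨_, hQ.subst hφ, fun k p b => ?_⟩
  simp only [Nat.unpair_pair]
  have : (fun i => nmc k0 i (vl (mk (i+1) (J2 p b)) i)) = fun n => nmc k0 n (vb b n) := by
    funext i
    rw [vl_eq p b (by omega)]
  rw [this]

/-- evaluate a relation at the first half of the oracle -/
lemma Del.left {Q : BP} (hQ : Del Q) : ∃ R : BP, Del R ∧ ∀ k p b, R k (J2 p b) ↔ Q k p := by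
  have hφ : RecT ∅ (fun w => (lget w.unpair.2.unpair.2 w.unpair.2.unpair.1).unpair.1) :=
    RecT.fst (RecT.lget (RecT.snd (RecT.snd recT_id)) (RecT.fst (RecT.snd recT_id)))
  refine ⟨_, hQ.subst hφ, fun k p b => ?_⟩
  simp only [Nat.unpair_pair]
  have : (fun i => (lget (mk (i+1) (J2 p b)) i).unpair.1) = p := by
    funext i
    rw [lget_mk (by omega)]
    simp [J2]
  rw [this]

end Pool.Agent.H166R3.LN
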