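import Pool.Agent.H166R3.LN.Beta
import Pool.Agent.H166R3.LN.MT3

set_option autoImplicit false
set_option linter.unusedVariables false

/-! The null set `NN` is analytic and coanalytic. -/

namespace Pool.Agent.H166R3.LN

open Pool.Agent.Helper743 (RecT pre join)
open Pool.Agent.H166R3.HD
open MeasureTheory Filter Topology Set Metric
open scoped Classical ENNReal

/-- Lebesgue measure on a unit interval -/
noncomputable def ll (k0 : ℤ) : Measure ℝ := volume.restrict (Icc (k0:ℝ) (k0+1))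

instance (k0 : ℤ) : IsFiniteMeasure (ll k0) := by unfold ll; infer_instance

lemma ll_real (k0 : ℤ) {B : Set ℝ} (hB : MeasurableSet B) :
    (ll k0).real B = cm.real (beta k0 ⁻¹' B) := by
  unfold Measure.real ll
  rw [← map_beta, Measure.map_apply (measurable_beta k0) hB]

variable {f : ℝ → ℝ}

lemma dist_iff (y y' d : ℝ) : y' ∈ closedBall y d ↔
    (∀ r r', rat r + d ≤ rat r' → ¬ (y < rat r ∧ rat r' < y')) ∧
    (∀ r r', rat r + d ≤ rat r' → ¬ (y' < rat r ∧ rat r' < y)) := by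
  rw [mem_closedBall, Real.dist_eq, abs_le]
  constructor
  · rintro ⟨h1, h2⟩
    exact ⟨fun r r' h ⟨h3, h4⟩ => by linarith, fun r r' h ⟨h3, h4⟩ => by linarith⟩
  · rintro ⟨h1, h2⟩
    constructor
    · by_contra hc
      obtain ⟨r, hr1, hr2⟩ := exists_rat_btwn (show y' < y - d by linarith)
      obtain ⟨r', hr1', hr2'⟩ := exists_rat_btwn (show rat r + d < y by linarith)
      exact h2 r r' hr1'.le ⟨hr1, hr2'⟩
    · by_contra hc
      obtain ⟨r, hr1, hr2⟩ := exists_rat_btwn (show y < y' - d by linarith)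
      obtain ⟨r', hr1', hr2'⟩ := exists_rat_btwn (show rat r + d < y' by linarith)
      exact h1 r r' hr1'.le ⟨hr1, hr2'⟩

/-- the measure quantifier on the reals -/
lemma DelR.meas (hf : CompF f) (k0 : ℤ) {A : ℕ → ℝ → Prop} (hA : DelR A)
    (hAm : ∀ k, MeasurableSet {x | A k x}) {e d : ℕ → ℝ} (he : RQ e) (hd : RQ d) :
    DelR (fun k x => e k < (ll k0).real ({x' | A k x'} ∩ f ⁻¹' closedBall (f x) (d k))) := by
  have hfc := hf.continuous
  have hA' : Del (NR A) := hA
  obtain ⟨RA, hRA, hRA'⟩ := hA'.bits k0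
  obtain ⟨V, hV, hV'⟩ := Del.left del_val
  have c1 : RecT ∅ (fun K => K.unpair.1.unpair.2) := RecT.snd (RecT.fst recT_id)
  have c2 : RecT ∅ (fun K => K.unpair.2) := RecT.snd recT_id
  obtain ⟨L1, hL1, hL1'⟩ := Del.left (delR_lt hf c1)
  obtain ⟨L2, hL2, hL2'⟩ := Del.left (delR_gt hf c2)
  obtain ⟨B1, hB1, hB1'⟩ := Del.bits (delR_lt hf c1) k0
  obtain ⟨B2, hB2, hB2'⟩ := Del.bits (delR_gt hf c2) k0
  have hc : RP ∅ (fun K => rat K.unpair.1.unpair.2 + d K.unpair.1.unpair.1 ≤ rat K.unpair.2) :=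
    RQ.le (RQ.add (RQ.rat c1) (hd.comp (RecT.fst (RecT.fst recT_id)))) (RQ.rat c2)
  have hR1 := ((Del.rp hc).imp (hL1.and hB2).not).all.all
  have hR2 := ((Del.rp hc).imp (hB1.and hL2).not).all.all
  have hR := hV.and (hRA.and (hR1.and hR2))
  have key : ∀ k p x, IsName p x → {b | V k (J2 p b) ∧ RA k (J2 p b) ∧
      (∀ m m', (rat (Nat.pair (Nat.pair k m) m').unpair.1.unpair.2 +
          d (Nat.pair (Nat.pair k m) m').unpair.1.unpair.1 ≤
          rat (Nat.pair (Nat.pair k m) m').unpair.2 →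
        ¬ (L1 (Nat.pair (Nat.pair k m) m') (J2 p b) ∧ B2 (Nat.pair (Nat.pair k m) m') (J2 p b)))) ∧
      (∀ m m', (rat (Nat.pair (Nat.pair k m) m').unpair.1.unpair.2 +
          d (Nat.pair (Nat.pair k m) m').unpair.1.unpair.1 ≤
          rat (Nat.pair (Nat.pair k m) m').unpair.2 →
        ¬ (B1 (Nat.pair (Nat.pair k m) m') (J2 p b) ∧ L2 (Nat.pair (Nat.pair k m) m') (J2 p b))))} =
      beta k0 ⁻¹' ({x' | A k x'} ∩ f ⁻¹' closedBall (f x) (d k)) := by
    intro k p x hx
    ext b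
    simp only [mem_ofPred_eq, mem_preimage, mem_inter_iff]
    rw [dist_iff, hV', hRA', NR_iff (isName_beta k0 b)]
    simp only [hL1', hL2', hB1', hB2', NR_iff hx, NR_iff (isName_beta k0 b), Nat.unpair_pair]
    constructor
    · rintro ⟨_, h⟩; exact h
    · intro h; exact ⟨⟨x, hx⟩, h⟩
  have hm : ∀ k p, MeasurableSet {b | V k (J2 p b) ∧ RA k (J2 p b) ∧
      (∀ m m', (rat (Nat.pair (Nat.pair k m) m').unpair.1.unpair.2 +
          d (Nat.pair (Nat.pair k m) m').unpair.1.unpair.1 ≤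
          rat (Nat.pair (Nat.pair k m) m').unpair.2 →
        ¬ (L1 (Nat.pair (Nat.pair k m) m') (J2 p b) ∧ B2 (Nat.pair (Nat.pair k m) m') (J2 p b)))) ∧
      (∀ m m', (rat (Nat.pair (Nat.pair k m) m').unpair.1.unpair.2 +
          d (Nat.pair (Nat.pair k m) m').unpair.1.unpair.1 ≤
          rat (Nat.pair (Nat.pair k m) m').unpair.2 →
        ¬ (B1 (Nat.pair (Nat.pair k m) m') (J2 p b) ∧
          L2 (Nat.pair (Nat.pair k m) m') (J2 p b))))} := by
    intro k p
    by_cases hv : Val p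
    · obtain ⟨x, hx⟩ := hv
      rw [key k p x hx]
      exact measurable_beta k0 ((hAm k).inter (hfc.measurable measurableSet_closedBall))
    · convert MeasurableSet.empty
      ext b
      simp only [mem_ofPred_eq, mem_empty_iff_false, iff_false]
      rintro ⟨h, _⟩
      exact hv ((hV' k p b).1 h)
  refine DelR.mk' (Del.meas hR hm he) fun k p x hx => ?_
  rw [ll_real k0 ((hAm k).inter (hfc.measurable measurableSet_closedBall)), ← key k p x hx]

/-- `D` exceeds the real number `q` -/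
def EX (q : ℝ) (D : ℝ≥0∞) : Prop := q < 0 ∨ ENNReal.ofReal q < D

lemma exists_gap {q : ℝ} (hq : 0 ≤ q) {D : ℝ≥0∞} (h : ENNReal.ofReal q < D) :
    ∃ m : ℕ, ENNReal.ofReal (q + 1 / ((m:ℝ)+1)) < D := by
  by_cases hD : D = ∞
  · exact ⟨0, by rw [hD]; exact ENNReal.ofReal_lt_top⟩
  · have h1 : q < D.toReal := (ENNReal.ofReal_lt_iff_lt_toReal hq hD).1 h
    obtain ⟨m, hm⟩ := exists_inv_lt h1
    exact ⟨m, (ENNReal.ofReal_lt_iff_lt_toReal (by positivity) hD).2 hm⟩

lemma dd_iff (l : Measure ℝ) [IsFiniteMeasure l] (A : Set ℝ) (q y : ℝ) :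
    EX q (DD f l A y) ↔ ∃ m : ℕ, ∀ N : ℕ, ∃ n, N ≤ n ∧ (q + 1 / ((m:ℝ)+1)) * (2 * (1 / ((n:ℝ)+1))) <
      l.real (A ∩ f ⁻¹' closedBall y (1 / ((n:ℝ)+1))) := by
  have hconv : ∀ (c : ℝ) (n : ℕ), 0 ≤ c → (ENNReal.ofReal c <
      l (A ∩ f ⁻¹' closedBall y (1/((n:ℝ)+1))) / volume (closedBall y (1/((n:ℝ)+1))) ↔
      c * (2 * (1 / ((n:ℝ)+1))) < l.real (A ∩ f ⁻¹' closedBall y (1 / ((n:ℝ)+1)))) := by
    intro c n hc
    have hpos : (0:ℝ) < 2 * (1 / ((n:ℝ)+1)) := by positivity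
    rw [Real.volume_closedBall, ENNReal.lt_div_iff_mul_lt (Or.inl (by
      rw [Ne, ENNReal.ofReal_eq_zero, not_le]; exact hpos)) (Or.inl ENNReal.ofReal_ne_top),
      ← ENNReal.ofReal_mul hc, ENNReal.ofReal_lt_iff_lt_toReal (by positivity) (measure_ne_top _ _)]
    rfl
  have hinv : ∀ m : ℕ, (0:ℝ) < 1 / ((m:ℝ)+1) := fun m => by positivity
  constructor
  · intro h
    by_cases hq : q < 0
    · obtain ⟨m, hm⟩ := exists_inv_lt hq
      refine ⟨m, fun N => ⟨N, le_rfl, ?_⟩⟩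
      have h1 : (q + 1 / ((m:ℝ)+1)) * (2 * (1 / ((N:ℝ)+1))) < 0 :=
        mul_neg_of_neg_of_pos hm (by positivity)
      exact lt_of_lt_of_le h1 measureReal_nonneg
    · have hq' := not_lt.1 hq
      rcases h with h | h
      · exact absurd h hq
      · obtain ⟨m, hm⟩ := exists_gap hq' h
        refine ⟨m, fun N => ?_⟩
        have hfr := Filter.frequently_lt_of_lt_limsup (by isBoundedDefault) hm
        rw [Filter.frequently_atTop] at hfr
        obtain ⟨n, hn1, hn2⟩ := hfr N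
        exact ⟨n, hn1, (hconv _ n (by have := hinv m; linarith)).1 hn2⟩
  · rintro ⟨m, hm⟩
    by_cases hq : q < 0
    · exact Or.inl hq
    · right
      have hq' := not_lt.1 hq
      have h1 : ENNReal.ofReal (q + 1 / ((m:ℝ)+1)) ≤ DD f l A y := by
        refine Filter.le_limsup_of_frequently_le ?_ (by isBoundedDefault)
        rw [Filter.frequently_atTop]
        intro N
        obtain ⟨n, hn1, hn2⟩ := hm N
        exact ⟨n, hn1, ((hconv _ n (by have := hinv m; linarith)).2 hn2).le⟩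
      refine lt_of_lt_of_le ?_ h1
      exact (ENNReal.ofReal_lt_ofReal_iff (by have := hinv m; linarith)).2
        (by have := hinv m; linarith)

/-- the densities of analytic and coanalytic sets -/
lemma DelR.dd (hf : CompF f) (k0 : ℤ) {A : ℕ → ℝ → Prop} (hA : DelR A)
    (hAm : ∀ k, MeasurableSet {x | A k x}) {q : ℕ → ℝ} (hq : RQ q) :
    DelR (fun k x => EX (q k) (DD f (ll k0) {x' | A k x'} (f x))) := by
  -- `K = pair (pair (pair k m) N) n`
  have k1 : RecT ∅ (fun K => K.unpair.1.unpair.1.unpair.1) := RecT.fst (RecT.fst (RecT.fst recT_id))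
  have m1 : RecT ∅ (fun K => K.unpair.1.unpair.1.unpair.2) := RecT.snd (RecT.fst (RecT.fst recT_id))
  have N1 : RecT ∅ (fun K => K.unpair.1.unpair.2) := RecT.snd (RecT.fst recT_id)
  have n1 : RecT ∅ (fun K => K.unpair.2) := RecT.snd recT_id
  have h1 := DelR.meas hf k0 (hA.num k1) (fun k => hAm _)
    (RQ.mul (RQ.add (hq.comp k1) (RQ.inv1 m1)) (RQ.mul (RQ.cst 2) (RQ.inv1 n1))) (RQ.inv1 n1)
  have h2 := (((DelR.rp (RP.le N1 n1)).and h1).ex.all.ex)
  refine h2.congr fun k x => ?_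
  rw [dd_iff]
  simp only [Nat.unpair_pair, Nat.cast_ofNat]

lemma le_iff_EX {c : ℝ} {D : ℝ≥0∞} :
    ENNReal.ofReal c ≤ D ↔ ∀ m : ℕ, EX (c - 1 / ((m:ℝ)+1)) D := by
  have hinv : ∀ m : ℕ, (0:ℝ) < 1 / ((m:ℝ)+1) := fun m => by positivity
  constructor
  · intro h m
    by_cases hc : c - 1 / ((m:ℝ)+1) < 0
    · exact Or.inl hc
    · right
      refine lt_of_lt_of_le ?_ h
      have := hinv m
      exact (ENNReal.ofReal_lt_ofReal_iff (by linarith)).2 (by linarith)
  · intro h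
    by_contra hc
    rw [not_le] at hc
    have hD : D ≠ ∞ := ne_top_of_lt hc
    have hcp : 0 < c := by
      by_contra h0
      rw [ENNReal.ofReal_of_nonpos (not_lt.1 h0)] at hc
      exact absurd hc not_lt_zero
    have h1 : D.toReal < c := by
      rw [← ENNReal.ofReal_toReal hD] at hc
      exact (ENNReal.ofReal_lt_ofReal_iff hcp).1 hc
    obtain ⟨m, hm⟩ := exists_inv_lt h1
    have h0 : 0 ≤ D.toReal := ENNReal.toReal_nonneg
    rcases h m with h2 | h2
    · have := hinv m; linarith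
    · rw [← ENNReal.ofReal_toReal hD] at h2
      have h3 := (ENNReal.ofReal_lt_ofReal_iff_of_nonneg (by linarith)).1 h2
      linarith

lemma gg_iff (l : Measure ℝ) (x : ℝ) : gg f l x = 0 ↔ ∀ m : ℕ, ∃ r r', (rat r < x ∧ x < rat r') ∧
    ¬ EX (1 / ((m:ℝ)+1)) (DD f l {x' | rat r < x' ∧ x' < rat r'} (f x)) := by
  have hinv : ∀ m : ℕ, (0:ℝ) < 1 / ((m:ℝ)+1) := fun m => by positivity
  constructor
  · intro h m
    have h1 : gg f l x < ENNReal.ofReal (1 / ((m:ℝ)+1)) := by
      rw [h]; exact ENNReal.ofReal_pos.2 (hinv m)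
    unfold gg at h1
    obtain ⟨i, hi⟩ := iInf_lt_iff.1 h1
    by_cases hc : (i.1 : ℝ) < x ∧ x < i.2
    · rw [if_pos hc] at hi
      obtain ⟨r, hr⟩ := rat_surj i.1
      obtain ⟨r', hr'⟩ := rat_surj i.2
      refine ⟨r, r', by rw [hr, hr']; exact hc, ?_⟩
      have : {x' | rat r < x' ∧ x' < rat r'} = Ioo (i.1:ℝ) i.2 := by rw [hr, hr']; rfl
      rw [this]
      rintro (h2 | h2)
      · exact absurd h2 (hinv m).not_gt
      · exact absurd (h2.trans hi) (lt_irrefl _)
    · rw [if_neg hc] at hi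
      exact absurd hi (not_lt.2 le_top)
  · intro h
    by_contra hne
    have hpos : 0 < gg f l x := pos_iff_ne_zero.2 hne
    have h0 : ENNReal.ofReal 0 < gg f l x := by rw [ENNReal.ofReal_zero]; exact hpos
    obtain ⟨m, hm⟩ := exists_gap le_rfl h0
    rw [zero_add] at hm
    obtain ⟨r, r', hc, hE⟩ := h m
    apply hE
    right
    refine lt_of_lt_of_le hm ?_
    obtain ⟨a, ha⟩ := rat_rat r
    obtain ⟨b, hb⟩ := rat_rat r'
    unfold gg
    refine (iInf_le _ (a, b)).trans ?_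
    rw [if_pos (by simp only; rw [← ha, ← hb]; exact hc)]
    simp only
    rw [← ha, ← hb]
    exact le_rfl

lemma delR_true : DelR (fun _ _ => True) := by
  refine (DelR.rp (r := fun k => k = k) (RP.eq recT_id recT_id)).congr fun k x => by simp

/-- membership in the unit interval -/
lemma delR_S (k0 : ℤ) : DelR (fun _ x => x ∈ Icc (k0:ℝ) (k0+1)) := by
  obtain ⟨a, ha⟩ := rat_surj k0
  obtain ⟨b, hb⟩ := rat_surj (k0 + 1)
  refine ((delR_idlt (recT_const a)).not.and (delR_idgt (recT_const b)).not).congr fun k x => ?_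
  rw [ha, hb, mem_Icc]
  push_cast
  rw [not_lt, not_lt]

lemma delR_Xc (hf : CompF f) (k0 : ℤ) :
    DelR (fun _ x => x ∈ Xc f (ll k0) (Icc (k0:ℝ) (k0+1))) := by
  have h1 : DelR (fun _ x => DD f (ll k0) univ (f x) ≠ ∞) := by
    have := (DelR.dd hf k0 delR_true (fun k => by simp)
      (RQ.nat (RecT.snd (O := ∅) recT_id))).not.ex
    refine this.congr fun k x => ?_
    simp only [Nat.unpair_pair]
    have hu : {x' : ℝ | True} = univ := by ext; simp
    rw [hu]
    constructor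
    · rintro ⟨m, hm⟩ htop
      apply hm
      right
      rw [htop]; exact ENNReal.ofReal_lt_top
    · intro hne
      obtain ⟨m, hm⟩ := exists_nat_gt (DD f (ll k0) univ (f x)).toReal
      refine ⟨m, ?_⟩
      rintro (h | h)
      · exact absurd h (by simp)
      · rw [← ENNReal.ofReal_toReal hne] at h
        have := (ENNReal.ofReal_lt_ofReal_iff_of_nonneg (by positivity)).1 h
        linarith
  have h2 : DelR (fun _ x => gg f (ll k0) x = 0) := by
    have c1 : RecT ∅ (fun K => K.unpair.1.unpair.2) := RecT.snd (RecT.fst recT_id)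
    have c2 : RecT ∅ (fun K => K.unpair.2) := RecT.snd recT_id
    have c3 : RecT ∅ (fun K => K.unpair.1.unpair.1.unpair.2) :=
      RecT.snd (RecT.fst (RecT.fst recT_id))
    have a1 := (delR_idgt c1).and (delR_idlt c2)
    have a2 := DelR.dd hf k0 a1 (fun k => measurableSet_Ioo) (RQ.inv1 c3)
    refine (a1.and a2.not).ex.ex.all.congr fun k x => ?_
    simp only [Nat.unpair_pair]
    rw [gg_iff]
  exact ((delR_S k0).and (h1.and h2)).congr fun k x => Iff.rfl

lemma FF_ge_iff (l : Measure ℝ) (S : Set ℝ) (x c : ℝ) : ENNReal.ofReal c ≤ FF f l S x ↔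
    ∀ r, x < rat r → ∀ m : ℕ, EX (c - 1 / ((m:ℝ)+1)) (DD f l (Xc f l S ∩ Iic (rat r)) (f x)) := by
  unfold FF
  rw [le_iInf_iff]
  constructor
  · intro h r hr
    obtain ⟨a, ha⟩ := rat_rat r
    rw [← le_iff_EX]
    have := h a
    rw [if_pos (by rw [← ha]; exact hr), ← ha] at this
    exact this
  · intro h a
    obtain ⟨r, hr⟩ := rat_surj a
    by_cases hc : x < a
    · rw [if_pos hc]
      have := le_iff_EX.2 (h r (by rw [hr]; exact hc))
      rwa [hr] at this
    · rw [if_neg hc]; exact le_top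

lemma FF_le_iff (l : Measure ℝ) (S : Set ℝ) (x : ℝ) {c : ℝ} (hc0 : 0 ≤ c) :
    FF f l S x ≤ ENNReal.ofReal c ↔
    ∀ m : ℕ, ∃ r, x < rat r ∧ ¬ EX (c + 1 / ((m:ℝ)+1)) (DD f l (Xc f l S ∩ Iic (rat r)) (f x)) := by
  have hinv : ∀ m : ℕ, (0:ℝ) < 1 / ((m:ℝ)+1) := fun m => by positivity
  constructor
  · intro h m
    have h1 : FF f l S x < ENNReal.ofReal (c + 1 / ((m:ℝ)+1)) := by
      refine lt_of_le_of_lt h ?_
      have := hinv m
      exact (ENNReal.ofReal_lt_ofReal_iff (by linarith)).2 (by linarith)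
    unfold FF at h1
    obtain ⟨a, hi⟩ := iInf_lt_iff.1 h1
    by_cases hc : x < a
    · rw [if_pos hc] at hi
      obtain ⟨r, hr⟩ := rat_surj a
      refine ⟨r, by rw [hr]; exact hc, ?_⟩
      rw [hr]
      rintro (h2 | h2)
      · have := hinv m; linarith
      · exact absurd (h2.trans hi) (lt_irrefl _)
    · rw [if_neg hc] at hi
      exact absurd hi (not_lt.2 le_top)
  · intro h
    by_contra hne
    obtain ⟨m, hm⟩ := exists_gap hc0 (not_le.1 hne)
    obtain ⟨r, hr, hE⟩ := h m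
    apply hE
    right
    refine lt_of_lt_of_le hm ?_
    obtain ⟨a, ha⟩ := rat_rat r
    unfold FF
    refine (iInf_le _ a).trans ?_
    rw [if_pos (by rw [← ha]; exact hr), ← ha]

lemma cc_nonneg (n j : ℕ) : 0 ≤ cc n j := by
  unfold cc
  exact Finset.sum_nonneg fun i _ => by positivity

/-- numerators -/
def ccN (j n : ℕ) : ℕ := Nat.rec 0 (fun y ih => 4 * (ih + j / 2^y % 2)) n

lemma cc_eq (j n : ℕ) : cc n j = (ccN j n : ℝ) * (1/4)^n := by
  induction n with
  | zero => simp [cc, ccN]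
  | succ n ih =>
    have h1 : cc (n+1) j = cc n j + ((j / 2^n % 2 : ℕ) : ℝ) * (1/4)^n := by
      unfold cc
      rw [Finset.sum_range_succ]
    have h2 : ccN j (n+1) = 4 * (ccN j n + j / 2^n % 2) := rfl
    rw [h1, ih, h2, pow_succ]
    push_cast
    ring

lemma RQ.cc {n j : ℕ → ℕ} (hn : RecT ∅ n) (hj : RecT ∅ j) : RQ (fun z => LN.cc (n z) (j z)) := by
  have h1 : RecT ∅ (fun z => 4 * (z.unpair.2.unpair.2 +
      z.unpair.1 / 2^z.unpair.2.unpair.1 % 2)) :=
    RecT.mul (recT_const 4) (RecT.add (RecT.snd (RecT.snd recT_id))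
      (RecT.mod (RecT.div (RecT.fst recT_id) (RecT.twopow (RecT.fst (RecT.snd recT_id))))
        (recT_const 2)))
  have h2 : RecT ∅ (fun z => ccN (j z) (n z)) := by
    refine RecT.congr (RecT.comp (RecT.prec (recT_const 0) h1) (RecT.pair hj hn)) fun z => ?_
    simp [ccN]
  have h3 : RQ (fun z => (1/4:ℝ)^(n z)) := by
    refine ((RQ.halfpow hn).mul (RQ.halfpow hn)).congr fun z => ?_
    rw [← mul_pow]; norm_num
  exact ((RQ.nat h2).mul h3).congr fun z => (cc_eq _ _).symm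

lemma set_le_eq (X : Set ℝ) (a : ℝ) : {x' | x' ∈ X ∧ ¬ (a < x')} = X ∩ Iic a := by
  ext x'; simp

/-- the null set is analytic and coanalytic -/
theorem delR_NN (hf : CompF f) (k0 : ℤ) :
    DelR (fun _ x => x ∈ NN f (ll k0) (Icc (k0:ℝ) (k0+1))) := by
  have hXm : MeasurableSet (Xc f (ll k0) (Icc (k0:ℝ) (k0+1))) :=
    measurableSet_Xc hf.continuous measurableSet_Icc
  -- `K = pair (pair (pair (pair k n) j) r) m`
  have k3 : RecT ∅ (fun K => K.unpair.1.unpair.1.unpair.1.unpair.2) :=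
    RecT.snd (RecT.fst (RecT.fst (RecT.fst recT_id)))
  have k2 : RecT ∅ (fun K => K.unpair.1.unpair.1.unpair.2) := RecT.snd (RecT.fst (RecT.fst recT_id))
  have k1 : RecT ∅ (fun K => K.unpair.1.unpair.2) := RecT.snd (RecT.fst recT_id)
  have k0' : RecT ∅ (fun K => K.unpair.2) := RecT.snd recT_id
  have e1 : DelR (fun K x => ENNReal.ofReal (LN.cc K.unpair.1.unpair.2 K.unpair.2) ≤
      FF f (ll k0) (Icc (k0:ℝ) (k0+1)) x) := by
    have a1 : DelR (fun K x => x ∈ Xc f (ll k0) (Icc (k0:ℝ) (k0+1)) ∧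
        ¬ (rat K.unpair.1.unpair.2 < x)) := (delR_Xc hf k0).and (delR_idgt k1).not
    have a2 := DelR.dd hf k0 a1 (fun K => by
      rw [set_le_eq]; exact hXm.inter measurableSet_Iic) (RQ.sub (RQ.cc k3 k2) (RQ.inv1 k0'))
    have a3 : DelR (fun K x => x < rat K.unpair.2) := delR_idlt k0'
    refine (a3.imp a2.all).all.congr fun K x => ?_
    simp only [Nat.unpair_pair]
    rw [FF_ge_iff]
    refine forall_congr' fun r => forall_congr' fun hr => forall_congr' fun m => ?_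
    rw [set_le_eq]
  have e2 : DelR (fun K x => FF f (ll k0) (Icc (k0:ℝ) (k0+1)) x ≤
      ENNReal.ofReal (LN.cc K.unpair.1.unpair.2 K.unpair.2 + 2 * (1/4)^K.unpair.1.unpair.2)) := by
    -- `K = pair (pair (pair (pair k n) j) m) r`
    have a1 : DelR (fun K x => x ∈ Xc f (ll k0) (Icc (k0:ℝ) (k0+1)) ∧
        ¬ (rat K.unpair.2 < x)) := (delR_Xc hf k0).and (delR_idgt k0').not
    have q4 : RQ (fun z => (1/4:ℝ)^(z.unpair.1.unpair.1.unpair.1.unpair.2)) := by
      refine ((RQ.halfpow k3).mul (RQ.halfpow k3)).congr fun z => ?_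
      rw [← mul_pow]; norm_num
    have a2 := DelR.dd hf k0 a1 (fun K => by
      rw [set_le_eq]; exact hXm.inter measurableSet_Iic)
      (RQ.add (RQ.add (RQ.cc k3 k2) (RQ.mul (RQ.cst 2) q4)) (RQ.inv1 k1))
    have a3 : DelR (fun K x => x < rat K.unpair.2) := delR_idlt k0'
    refine (a3.and a2.not).ex.all.congr fun K x => ?_
    simp only [Nat.unpair_pair]
    rw [FF_le_iff _ _ _ (by have := cc_nonneg K.unpair.1.unpair.2 K.unpair.2; positivity)]
    refine forall_congr' fun m => exists_congr fun r => and_congr_right fun hr => ?_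
    rw [set_le_eq]
    simp only [Nat.cast_ofNat]
  have e3 : DelR (fun K _ => K.unpair.2 < 2^K.unpair.1.unpair.2) := DelR.rp (RP.lt k0' (RecT.twopow k1))
  refine ((delR_Xc hf k0).and (e3.and (e1.and e2)).ex.all).congr fun k x => ?_
  simp only [Nat.unpair_pair]
  rfl

end Pool.Agent.H166R3.LN
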