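import Pool.Agent.H166R3.LN.RQ

set_option autoImplicit false
set_option linter.unusedVariables false

/-! The measure quantifier for analytic relations. -/

namespace Pool.Agent.H166R3.LN

open Pool.Agent.Helper743 (RecT pre join)
open Pool.Agent.H166R3.HD
open MeasureTheory Filter Topology
open scoped Classical

lemma mk_succ' (n : ℕ) (H : ℕ → ℕ) : mk (n+1) H = Nat.succ (Nat.pair (H 0) (mk n (fun i => H (i+1)))) := by
  unfold mk
  rw [List.range_succ_eq_map]
  simp [Function.comp_def]

lemma mk_mono {n : ℕ} : ∀ {H H' : ℕ → ℕ}, (∀ i < n, H i ≤ H' i) → mk n H ≤ mk n H' := by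
  induction n with
  | zero => intro H H' _; exact le_rfl
  | succ n ih =>
    intro H H' h
    rw [mk_succ', mk_succ']
    refine Nat.succ_le_succ ?_
    have h1 := ih (H := fun i => H (i+1)) (H' := fun i => H' (i+1)) fun i hi => h (i+1) (by omega)
    have h0 := h 0 (by omega)
    calc Nat.pair (H 0) (mk n (fun i => H (i+1)))
        ≤ Nat.pair (H' 0) (mk n (fun i => H (i+1))) := by
          rcases h0.lt_or_eq with h | h
          · exact (Nat.pair_lt_pair_left _ h).le
          · rw [h]
      _ ≤ _ := by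
          rcases h1.lt_or_eq with h | h
          · exact (Nat.pair_lt_pair_right _ h).le
          · rw [h]

lemma mk_succ (n : ℕ) (H : ℕ → ℕ) : mk (n+1) H =
    Encodable.encode (((Encodable.decode (α := List ℕ) (mk n H)).getD []) ++ [H n]) := by
  unfold mk
  rw [List.range_succ, List.map_append, Encodable.encodek, Option.getD_some]
  simp

lemma tr_tr {m n : ℕ} (h : m ≤ n) (c : ℕ) : tr m (tr n c) = tr m c := tr_mk h _

/-- the oracle with bits added -/
def J2 (p : ℕ → ℕ) (b : ℕ → Bool) : ℕ → ℕ := fun i => Nat.pair (p i) (b i).toNat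

/-- compactness -/
lemma konig (R : ℕ → ℕ → Prop) (h : ℕ → ℕ)
    (hc : ∀ n, ∃ c, (∀ i < n, lget c i ≤ h i) ∧ ∀ j < n+1, R j (tr j c)) :
    ∃ g : ℕ → ℕ, (∀ i, g i ≤ h i) ∧ ∀ j, R j (mk j g) := by
  let K : ℕ → Set (∀ i, Fin (h i + 1)) := fun n => {g | ∀ j < n+1, R j (mk j (fun i => (g i : ℕ)))}
  have hcont : ∀ j, Continuous (fun g : ∀ i, Fin (h i + 1) => mk j (fun i => (g i : ℕ))) := by
    intro j
    induction j with
    | zero => exact continuous_const
    | succ j ih =>
      have h1 : Continuous (fun g : ∀ i, Fin (h i + 1) => ((g j : ℕ))) :=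
        (continuous_of_discreteTopology (f := fun b : Fin (h j + 1) => (b : ℕ))).comp
          (continuous_apply j)
      have h2 : Continuous (fun w : ℕ × ℕ =>
        Encodable.encode (((Encodable.decode (α := List ℕ) w.1).getD []) ++ [w.2])) :=
        continuous_of_discreteTopology
      have := h2.comp (ih.prodMk h1)
      refine this.congr fun g => ?_
      exact (mk_succ j _).symm
  have hcl : ∀ n, IsClosed (K n) := by
    intro n
    have : K n = ⋂ j, ⋂ (_ : j < n+1), {g | R j (mk j (fun i => (g i : ℕ)))} := by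
      ext g; simp [K]
    rw [this]
    exact isClosed_iInter fun j => isClosed_iInter fun _ =>
      (isClosed_discrete {s | R j s}).preimage (hcont j)
  have hne : ∀ n, (K n).Nonempty := by
    intro n
    obtain ⟨c, hc1, hc2⟩ := hc n
    refine ⟨fun i => ⟨min (lget c i) (h i), by
      have := min_le_right (lget c i) (h i); omega⟩, fun j hj => ?_⟩
    have := hc2 j hj
    unfold tr at this
    convert this using 1
    refine mk_congr fun i hi => ?_
    simp only
    exact min_eq_left (hc1 i (by omega))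
  obtain ⟨g, hg⟩ := IsCompact.nonempty_iInter_of_sequence_nonempty_isCompact_isClosed K
    (fun n g hg j hj => hg j (by omega)) hne (hcl 0).isCompact hcl
  rw [Set.mem_iInter] at hg
  exact ⟨fun i => g i, fun i => by have := (g i).2; show (g i : ℕ) ≤ h i; omega,
    fun j => hg j j (by omega)⟩

lemma exists_inv_lt {a b : ℝ} (h : a < b) : ∃ m : ℕ, a + 1 / ((m:ℝ)+1) < b := by
  obtain ⟨m, hm⟩ := exists_nat_one_div_lt (sub_pos.2 h)
  exact ⟨m, by linarith⟩

/-- the equivalence behind the measure quantifier -/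
lemma meas_key (r : ℕ → (ℕ → Bool) → ℕ → Prop) (hr : ∀ j s, MeasurableSet {b | r j b s}) (e : ℝ) :
    (e < cm.real {b | ∃ g : ℕ → ℕ, ∀ j, r j b (mk j g)}) ↔
    ∃ (m : ℕ) (h : ℕ → ℕ), ∀ n, e + 1 / ((m:ℝ)+1) ≤ cm.real {b | ∃ c < mk n h + 1,
      (∀ i < n, lget c i ≤ h i) ∧ ∀ j < n+1, r j b (tr j c)} := by
  constructor
  · intro he
    obtain ⟨m, hm⟩ := exists_inv_lt he
    refine ⟨m, ?_⟩
    set e' := e + 1 / ((m:ℝ)+1) with he'
    let E : ℕ → (ℕ → ℕ) → Set (ℕ → Bool) := fun n h =>
      {b | ∃ g : ℕ → ℕ, (∀ i < n, g i ≤ h i) ∧ ∀ j, r j b (mk j g)}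
    have hEcongr : ∀ n h h', (∀ i < n, h i = h' i) → E n h = E n h' := by
      intro n h h' hh
      ext b
      simp only [E, Set.mem_ofPred_eq]
      exact exists_congr fun g => and_congr_left fun _ =>
        forall_congr' fun i => forall_congr' fun hi => by rw [hh i hi]
    have hstep : ∀ n h, e' < cm.real (E n h) → ∃ v, e' < cm.real (E (n+1) (Function.update h n v)) := by
      intro n h hlt
      have hU : E n h = ⋃ v, E (n+1) (Function.update h n v) := by
        ext b
        simp only [E, Set.mem_ofPred_eq, Set.mem_iUnion]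
        constructor
        · rintro ⟨g, hg1, hg2⟩
          refine ⟨g n, g, fun i hi => ?_, hg2⟩
          rcases Nat.lt_succ_iff_lt_or_eq.1 hi with h1 | h1
          · rw [Function.update_of_ne (by omega)]; exact hg1 i h1
          · subst h1; simp
        · rintro ⟨v, g, hg1, hg2⟩
          refine ⟨g, fun i hi => ?_, hg2⟩
          have := hg1 i (by omega)
          rwa [Function.update_of_ne (by omega)] at this
      have hmono : Monotone (fun v => E (n+1) (Function.update h n v)) := by
        intro v w hvw b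
        simp only [E, Set.mem_ofPred_eq]
        rintro ⟨g, hg1, hg2⟩
        refine ⟨g, fun i hi => ?_, hg2⟩
        rcases Nat.lt_succ_iff_lt_or_eq.1 hi with h1 | h1
        · have := hg1 i hi
          rw [Function.update_of_ne (by omega)] at this ⊢
          exact this
        · subst h1
          have := hg1 i hi
          simp only [Function.update_self] at this ⊢
          exact this.trans hvw
      have ht : Tendsto (fun v => cm.real (E (n+1) (Function.update h n v))) atTop
          (𝓝 (cm.real (E n h))) := by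
        rw [hU]
        have := tendsto_measure_iUnion_atTop (μ := cm) hmono
        exact (ENNReal.tendsto_toReal (measure_ne_top _ _)).comp this
      exact (ht.eventually (lt_mem_nhds hlt)).exists
    choose! v hv using hstep
    let H : ℕ → (ℕ → ℕ) := fun n => Nat.rec (fun _ => 0) (fun n h => Function.update h n (v n h)) n
    have hH : ∀ n, H (n+1) = Function.update (H n) n (v n (H n)) := fun n => rfl
    have hHE : ∀ n, e' < cm.real (E n (H n)) := by
      intro n
      induction n with
      | zero =>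
        refine lt_of_lt_of_le hm (le_of_eq ?_)
        congr 1
        ext b; simp [E]
      | succ n ih => rw [hH]; exact hv n _ ih
    have hHs : ∀ n i, i < n → H n i = H (i+1) i := by
      intro n
      induction n with
      | zero => intro i hi; omega
      | succ n ih =>
        intro i hi
        rcases Nat.lt_succ_iff_lt_or_eq.1 hi with h1 | h1
        · rw [hH, Function.update_of_ne (by omega)]; exact ih i h1
        · subst h1; rfl
    refine ⟨fun i => H (i+1) i, fun n => ?_⟩
    have h1 : e' < cm.real (E n (fun i => H (i+1) i)) := by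
      rw [← hEcongr n (H n) _ (fun i hi => hHs n i hi)]
      exact hHE n
    refine h1.le.trans (measureReal_mono ?_)
    intro b
    simp only [E, Set.mem_ofPred_eq]
    rintro ⟨g, hg1, hg2⟩
    refine ⟨mk n g, Nat.lt_succ_of_le (mk_mono hg1), fun i hi => by rw [lget_mk hi]; exact hg1 i hi,
      fun j hj => ?_⟩
    rw [tr_mk (by omega)]; exact hg2 j
  · rintro ⟨m, h, hh⟩
    have hpos : (0:ℝ) < 1 / ((m:ℝ)+1) := by positivity
    let C : ℕ → Set (ℕ → Bool) := fun n => {b | ∃ c < mk n h + 1,
      (∀ i < n, lget c i ≤ h i) ∧ ∀ j < n+1, r j b (tr j c)}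
    have hCm : ∀ n, MeasurableSet (C n) := by
      intro n
      have : C n = ⋃ c, ⋃ (_ : c < mk n h + 1), ⋃ (_ : ∀ i < n, lget c i ≤ h i),
          ⋂ j, ⋂ (_ : j < n+1), {b | r j b (tr j c)} := by
        ext b
        simp only [C, Set.mem_ofPred_eq, Set.mem_iUnion, Set.mem_iInter, exists_prop]
      rw [this]
      exact MeasurableSet.iUnion fun c => MeasurableSet.iUnion fun _ => MeasurableSet.iUnion fun _ =>
        MeasurableSet.iInter fun j => MeasurableSet.iInter fun _ => hr j _
    have hanti : Antitone C := by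
      refine antitone_nat_of_succ_le fun n b => ?_
      rintro ⟨c, hc1, hc2, hc3⟩
      refine ⟨tr n c, Nat.lt_succ_of_le (mk_mono fun i hi => hc2 i (by omega)), fun i hi => ?_,
        fun j hj => ?_⟩
      · unfold tr; rw [lget_mk hi]; exact hc2 i (by omega)
      · rw [tr_tr (by omega)]; exact hc3 j (by omega)
    have ht : Tendsto (fun n => cm.real (C n)) atTop (𝓝 (cm.real (⋂ n, C n))) := by
      have := tendsto_measure_iInter_atTop (μ := cm) (fun n => (hCm n).nullMeasurableSet) hanti
        ⟨0, measure_ne_top _ _⟩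
      exact (ENNReal.tendsto_toReal (measure_ne_top _ _)).comp this
    have h1 : e + 1 / ((m:ℝ)+1) ≤ cm.real (⋂ n, C n) := ge_of_tendsto' ht hh
    have h2 : cm.real (⋂ n, C n) ≤ cm.real {b | ∃ g : ℕ → ℕ, ∀ j, r j b (mk j g)} := by
      refine measureReal_mono ?_
      intro b hb
      rw [Set.mem_iInter] at hb
      obtain ⟨g, _, hg⟩ := konig (fun j s => r j b s) h (fun n => by
        obtain ⟨c, _, hc⟩ := hb n
        exact ⟨c, hc⟩)
      exact ⟨g, hg⟩
    linarith

lemma tr_eq (m s : ℕ) : tr m s = mk m (fun i => lget s i) := rfl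

theorem Sig.meas {Q : BP} (hQ : Sig Q) {e : ℕ → ℝ} (he : RQ e) :
    Sig (fun k p => e k < cm.real {b | Q k (J2 p b)}) := by
  obtain ⟨r, hr, hQr⟩ := hQ
  have h0 : ∀ k p, (e k < cm.real {b | Q k (J2 p b)}) ↔ ∃ (m : ℕ) (h : ℕ → ℕ), ∀ n,
      e k + 1 / ((m:ℝ)+1) ≤ (((Finset.range (2^n)).filter (fun l => ∃ c < mk n h + 1,
        (∀ i < n, lget c i ≤ h i) ∧ ∀ j < n+1, r (KK k j (mk j (fun i => Nat.pair (p i)
          (l / 2^i % 2))) (tr j c)))).card : ℝ) * (1/2)^n := by
    intro k p
    have h1 : {b | Q k (J2 p b)} = {b | ∃ g : ℕ → ℕ, ∀ j, r (KK k j (mk j (J2 p b)) (mk j g))} := by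
      ext b; exact hQr k _
    have h2 : ∀ j s, MeasurableSet {b | r (KK k j (mk j (J2 p b)) s)} := by
      intro j s
      have : {b | r (KK k j (mk j (J2 p b)) s)} = {b | r (KK k j (mk j (fun i => Nat.pair (p i)
          (enc b j / 2^i % 2))) s)} := by
        ext b
        simp only [Set.mem_ofPred_eq]
        have hmk : mk j (fun i => Nat.pair (p i) (enc b j / 2^i % 2)) = mk j (J2 p b) :=
          mk_congr fun i hi => by rw [enc_bit b hi]; rfl
        rw [hmk]
      rw [this]
      exact meas_encset j (fun l => r (KK k j (mk j (fun i => Nat.pair (p i) (l / 2^i % 2))) s))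
    rw [h1, meas_key (fun j b s => r (KK k j (mk j (J2 p b)) s)) h2]
    refine exists_congr fun m => exists_congr fun h => forall_congr' fun n => ?_
    have h3 : {b | ∃ c < mk n h + 1, (∀ i < n, lget c i ≤ h i) ∧ ∀ j < n+1,
        r (KK k j (mk j (J2 p b)) (tr j c))} = {b | ∃ c < mk n h + 1, (∀ i < n, lget c i ≤ h i) ∧
        ∀ j < n+1, r (KK k j (mk j (fun i => Nat.pair (p i) (enc b n / 2^i % 2))) (tr j c))} := by
      ext b
      simp only [Set.mem_ofPred_eq]
      refine exists_congr fun c => and_congr_right fun _ => and_congr_right fun _ =>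
        forall_congr' fun j => forall_congr' fun hj => ?_
      have hmk : mk j (fun i => Nat.pair (p i) (enc b n / 2^i % 2)) = mk j (J2 p b) :=
        mk_congr fun i hi => by rw [enc_bit b (by omega : i < n)]; rfl
      rw [hmk]
    rw [h3, cm_encset_real n (fun l => ∃ c < mk n h + 1, (∀ i < n, lget c i ≤ h i) ∧
        ∀ j < n+1, r (KK k j (mk j (fun i => Nat.pair (p i) (l / 2^i % 2))) (tr j c)))]
    rw [one_div_pow, ← div_eq_mul_one_div]
    refine iff_of_eq ?_
    congr!
  -- the relation
  let r' : ℕ → Prop := fun z => e z.unpair.1.unpair.1 + 1 / ((z.unpair.1.unpair.2 : ℝ)+1) ≤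
    (((Finset.range (2^z.unpair.2.unpair.1)).filter (fun l =>
      ∃ c < z.unpair.2.unpair.2.unpair.2 + 1,
        (∀ i < z.unpair.2.unpair.1, lget c i ≤ lget z.unpair.2.unpair.2.unpair.2 i) ∧
        ∀ j < z.unpair.2.unpair.1+1, r (KK z.unpair.1.unpair.1 j (mk j (fun i =>
          Nat.pair (lget z.unpair.2.unpair.2.unpair.1 i) (l / 2^i % 2))) (tr j c)))).card : ℝ) *
      (1/2)^z.unpair.2.unpair.1
  have hr' : RP ∅ r' := by
    refine RQ.le (RQ.add (he.comp (RecT.fst (rK recT_id))) (RQ.inv1 (RecT.snd (rK recT_id))))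
      (RQ.mul (RQ.nat ?_) (RQ.halfpow (rN recT_id)))
    -- predicate of `pair z l`
    have p1 : RP ∅ (fun x => lget x.unpair.1.unpair.2 x.unpair.2 ≤
        lget x.unpair.1.unpair.1.unpair.1.unpair.2.unpair.2.unpair.2 x.unpair.2) :=
      RP.le (RecT.lget (RecT.snd (RecT.fst recT_id)) (RecT.snd recT_id))
        (RecT.lget (rT (RecT.fst (RecT.fst (RecT.fst recT_id)))) (RecT.snd recT_id))
    have p1' := RP.ball p1 (b := fun v => v.unpair.1.unpair.1.unpair.2.unpair.1)
      (rN (RecT.fst (RecT.fst recT_id)))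
    have p2 : RP ∅ (fun u => r (KK u.unpair.1.unpair.1.unpair.1.unpair.1.unpair.1 u.unpair.2
        (mk u.unpair.2 (fun i =>
          Nat.pair (lget u.unpair.1.unpair.1.unpair.1.unpair.2.unpair.2.unpair.1 i)
            (u.unpair.1.unpair.1.unpair.2 / 2^i % 2))) (tr u.unpair.2 u.unpair.1.unpair.2))) := by
      refine RP.comp hr (RecT.KK (RecT.fst (rK (RecT.fst (RecT.fst (RecT.fst recT_id)))))
        (RecT.snd recT_id) ?_ ?_)
      · refine RecT.congr (RecT.mk (H := fun x => Nat.pair
          (lget x.unpair.1.unpair.1.unpair.1.unpair.1.unpair.2.unpair.2.unpair.1 x.unpair.2)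
            (x.unpair.1.unpair.1.unpair.1.unpair.2 / 2^x.unpair.2 % 2)) (RecT.snd recT_id)
          (RecT.pair (RecT.lget (rS (RecT.fst (RecT.fst (RecT.fst (RecT.fst recT_id)))))
            (RecT.snd recT_id)) (RecT.mod (RecT.div (RecT.snd (RecT.fst (RecT.fst (RecT.fst
              recT_id)))) (RecT.twopow (RecT.snd recT_id))) (recT_const 2))))
          (fun z => by simp)
      · refine RecT.congr (RecT.mk (H := fun x => lget x.unpair.1.unpair.1.unpair.2 x.unpair.2)
          (RecT.snd recT_id) (RecT.lget (RecT.snd (RecT.fst (RecT.fst recT_id)))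
            (RecT.snd recT_id))) (fun z => by simp [tr])
    have p2' := RP.ball p2 (b := fun v => v.unpair.1.unpair.1.unpair.2.unpair.1 + 1)
      (RecT.add (rN (RecT.fst (RecT.fst recT_id))) (recT_const 1))
    have p3 := RP.bex (RP.and p1' p2') (b := fun w => w.unpair.1.unpair.2.unpair.2.unpair.2 + 1)
      (RecT.add (rT (RecT.fst recT_id)) (recT_const 1))
    refine RecT.congr (RecT.count p3 (RecT.twopow (rN recT_id))) (fun z => ?_)
    simp only [Nat.unpair_pair]
  refine Sig.congr (Q := fun k p => ∃ m, ∃ h : ℕ → ℕ, ∀ n,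
    r' (KK (Nat.pair k m) n (mk n p) (mk n h))) ?_ ?_
  · exact Sig.ex (Q := fun k p => ∃ h : ℕ → ℕ, ∀ n, r' (KK k n (mk n p) (mk n h)))
      ⟨r', hr', fun k p => Iff.rfl⟩
  · intro k p
    rw [h0]
    refine exists_congr fun m => exists_congr fun h => forall_congr' fun n => ?_
    simp only [r', KK1, KK2, KK3, KK4, Nat.unpair_pair]
    have : ∀ l, (∃ c < mk n h + 1, (∀ i < n, lget c i ≤ lget (mk n h) i) ∧ ∀ j < n+1,
        r (KK k j (mk j (fun i => Nat.pair (lget (mk n p) i) (l / 2^i % 2))) (tr j c))) ↔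
        (∃ c < mk n h + 1, (∀ i < n, lget c i ≤ h i) ∧ ∀ j < n+1,
        r (KK k j (mk j (fun i => Nat.pair (p i) (l / 2^i % 2))) (tr j c))) := by
      intro l
      refine exists_congr fun c => and_congr_right fun _ => and_congr ?_ ?_
      · exact forall_congr' fun i => forall_congr' fun hi => by rw [lget_mk hi]
      · refine forall_congr' fun j => forall_congr' fun hj => ?_
        rw [mk_congr (H' := fun i => Nat.pair (p i) (l / 2^i % 2)) fun i hi => by
          rw [lget_mk (by omega)]]
    simp only [this]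

end Pool.Agent.H166R3.LN
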