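import Mathlib

set_option autoImplicit false

/-! Disintegration of Lebesgue measure along a continuous function, in terms of densities. -/

namespace Pool.Agent.H166R3.LN

open MeasureTheory Measure Filter Topology Set Metric
open scoped ENNReal

noncomputable section

/-- upper density at `y`, with respect to Lebesgue measure, of the image of the part of `l` on
the set `A` -/
def DD (f : ℝ → ℝ) (l : Measure ℝ) (A : Set ℝ) (y : ℝ) : ℝ≥0∞ :=
  limsup (fun n : ℕ => l (A ∩ f ⁻¹' closedBall y (1/((n:ℝ)+1))) /
    volume (closedBall y (1/((n:ℝ)+1)))) atTop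

open Classical in
/-- the density contributed by the point `x` -/
def gg (f : ℝ → ℝ) (l : Measure ℝ) (x : ℝ) : ℝ≥0∞ :=
  ⨅ i : ℚ × ℚ, if ((i.1 : ℝ) < x ∧ x < i.2) then DD f l (Ioo i.1 i.2) (f x) else ⊤

/-- the diffuse part -/
def Xc (f : ℝ → ℝ) (l : Measure ℝ) (S : Set ℝ) : Set ℝ :=
  {x | x ∈ S ∧ DD f l univ (f x) ≠ ∞ ∧ gg f l x = 0}

open Classical in
/-- the distribution function of the diffuse part in the fibre of `x` -/
def FF (f : ℝ → ℝ) (l : Measure ℝ) (S : Set ℝ) (x : ℝ) : ℝ≥0∞ :=
  ⨅ r : ℚ, if x < r then DD f l (Xc f l S ∩ Iic r) (f x) else ⊤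

/-- partial sums -/
def cc (n j : ℕ) : ℝ := ∑ i ∈ Finset.range n, ((j / 2^i % 2 : ℕ) : ℝ) * (1/4)^i

/-- a closed null set that is uncountable at `0` -/
def Cs : Set ℝ≥0∞ :=
  {w | ∀ n : ℕ, ∃ j < 2^n, ENNReal.ofReal (cc n j) ≤ w ∧ w ≤ ENNReal.ofReal (cc n j + 2 * (1/4)^n)}

/-- the null set -/
def NN (f : ℝ → ℝ) (l : Measure ℝ) (S : Set ℝ) : Set ℝ :=
  {x | x ∈ Xc f l S ∧ FF f l S x ∈ Cs}

/-- the joint law -/
def rho (f : ℝ → ℝ) (l : Measure ℝ) : Measure (ℝ × ℝ) := l.map (fun x => (f x, x))

variable {f : ℝ → ℝ} {l : Measure ℝ} [IsFiniteMeasure l]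

instance : IsFiniteMeasure (rho f l) := by unfold rho; infer_instance

/-- the fibre measure -/
def nu (f : ℝ → ℝ) (l : Measure ℝ) [IsFiniteMeasure l] (y : ℝ) : Measure ℝ :=
  ((rho f l).fst.rnDeriv volume y) • ((rho f l).condKernel y)

lemma nu_apply (y : ℝ) (A : Set ℝ) :
    nu f l y A = (rho f l).fst.rnDeriv volume y * (rho f l).condKernel y A := rfl

lemma measurable_pairf (hf : Continuous f) : Measurable (fun x : ℝ => (f x, x)) :=
  hf.measurable.prodMk measurable_id

omit [IsFiniteMeasure l] in
lemma rho_apply (hf : Continuous f) {T : Set (ℝ × ℝ)} (hT : MeasurableSet T) :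
    rho f l T = l {x | (f x, x) ∈ T} := by
  unfold rho
  rw [map_apply (measurable_pairf hf) hT]
  rfl

omit [IsFiniteMeasure l] in
lemma fst_apply (hf : Continuous f) {E : Set ℝ} (hE : MeasurableSet E) :
    (rho f l).fst E = l (f ⁻¹' E) := by
  rw [Measure.fst_apply hE, rho_apply hf (measurable_fst hE)]
  rfl

lemma measurable_DD (hf : Continuous f) {A : Set ℝ} (hA : MeasurableSet A) :
    Measurable (DD f l A) := by
  unfold DD
  refine Measurable.limsup fun n => ?_
  refine Measurable.div ?_ ?_
  · have hs : MeasurableSet {p : ℝ × ℝ | p.2 ∈ A ∧ dist (f p.2) p.1 ≤ 1/((n:ℝ)+1)} := by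
      refine MeasurableSet.inter (measurable_snd hA) ?_
      exact measurableSet_le ((hf.comp continuous_snd).dist continuous_fst).measurable
        measurable_const
    have := measurable_measure_prodMk_left (ν := l) hs
    exact this
  · have : (fun y : ℝ => volume (closedBall y (1/((n:ℝ)+1)))) =
        fun _ => ENNReal.ofReal (2 * (1/((n:ℝ)+1))) := by
      funext y; exact Real.volume_closedBall _ _
    rw [this]
    exact measurable_const

lemma tendsto_rad : Tendsto (fun n : ℕ => 1/((n:ℝ)+1)) atTop (𝓝[>] 0) := by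
  rw [tendsto_nhdsWithin_iff]
  exact ⟨tendsto_one_div_add_atTop_nhds_zero_nat, Eventually.of_forall fun n => by
    show (0:ℝ) < 1/((n:ℝ)+1)
    positivity⟩

/-- the density is computed by the fibre measures -/
lemma DD_ae (hf : Continuous f) {A : Set ℝ} (hA : MeasurableSet A) :
    ∀ᵐ y ∂(volume : Measure ℝ), DD f l A y = nu f l y A := by
  set μ := (rho f l).fst with hμ
  have hκ : Measurable (fun y => (rho f l).condKernel y A) :=
    ProbabilityTheory.Kernel.measurable_coe _ hA
  have hρ : (l.restrict A).map f = μ.withDensity (fun y => (rho f l).condKernel y A) := by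
    ext E hE
    rw [map_apply hf.measurable hE, Measure.restrict_apply (hf.measurable hE),
      withDensity_apply _ hE, Measure.setLIntegral_condKernel_eq_measure_prod hE hA,
      rho_apply hf (hE.prod hA)]
    rfl
  have hfin : ∀ᵐ y ∂μ, (rho f l).condKernel y A ≠ ∞ :=
    Eventually.of_forall fun y => measure_ne_top _ _
  have h1 := Besicovitch.ae_tendsto_rnDeriv ((l.restrict A).map f) (volume : Measure ℝ)
  have h2 := rnDeriv_withDensity_left (μ := μ) (ν := (volume : Measure ℝ)) hκ.aemeasurable hfin
  rw [← hρ] at h2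
  filter_upwards [h1, h2] with y hy1 hy2
  have h3 := (hy1.comp tendsto_rad).limsup_eq
  unfold DD
  rw [nu_apply, mul_comm, ← hy2, ← h3]
  congr 1
  funext n
  simp only [Function.comp_apply]
  rw [map_apply hf.measurable measurableSet_closedBall,
    Measure.restrict_apply (hf.measurable measurableSet_closedBall), inter_comm]

lemma nu_univ (y : ℝ) : nu f l y univ = (rho f l).fst.rnDeriv volume y := by
  rw [nu_apply, measure_univ, mul_one]

/-- sets that are null for the joint law are null in almost all fibres -/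
lemma nu_null {T : Set (ℝ × ℝ)} (hT : MeasurableSet T)
    (h0 : rho f l T = 0) : ∀ᵐ y ∂(volume : Measure ℝ), nu f l y {x | (y, x) ∈ T} = 0 := by
  have h1 : ∫⁻ y, (rho f l).condKernel y {x | (y, x) ∈ T} ∂(rho f l).fst = 0 := by
    rw [Measure.lintegral_condKernel_mem hT, h0]
  have hmeas : Measurable (fun y => (rho f l).condKernel y {x | (y, x) ∈ T}) :=
    ProbabilityTheory.Kernel.measurable_kernel_prodMk_left hT
  have h2 : ∫⁻ y, (rho f l).condKernel y {x | (y, x) ∈ T}
      ∂(volume.withDensity ((rho f l).fst.rnDeriv volume)) = 0 := by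
    refine le_antisymm ?_ bot_le
    rw [← h1]
    exact lintegral_mono' (withDensity_rnDeriv_le _ _) le_rfl
  rw [lintegral_withDensity_eq_lintegral_mul _ (measurable_rnDeriv _ _) hmeas,
    lintegral_eq_zero_iff ((measurable_rnDeriv _ _).mul hmeas)] at h2
  filter_upwards [h2] with y hy
  exact hy

/-- away from the singular part, fibrewise null sets are null -/
lemma null_of_nu (hf : Continuous f) {N : Set ℝ} (hN : MeasurableSet N)
    (hfin : ∀ x ∈ N, DD f l univ (f x) ≠ ∞)
    (h : ∀ᵐ y ∂(volume : Measure ℝ), nu f l y N = 0) : l N = 0 := by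
  set μ := (rho f l).fst with hμ
  have hmeas : Measurable (fun y => (rho f l).condKernel y N) :=
    ProbabilityTheory.Kernel.measurable_coe _ hN
  have h1 : l N = ∫⁻ y, (rho f l).condKernel y N ∂μ := by
    have := Measure.setLIntegral_condKernel_eq_measure_prod (ρ := rho f l) MeasurableSet.univ hN
    rw [Measure.restrict_univ, rho_apply hf (MeasurableSet.univ.prod hN)] at this
    rw [hμ, this]
    congr 1
    ext x; simp
  rw [h1, haveLebesgueDecomposition_add μ (volume : Measure ℝ), lintegral_add_measure]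
  -- the fibre property
  have hfib : ∀ᵐ y ∂μ, (rho f l).condKernel y {x | f x ≠ y} = 0 := by
    have hT : MeasurableSet {p : ℝ × ℝ | f p.2 ≠ p.1} :=
      (measurableSet_eq_fun (hf.measurable.comp measurable_snd) measurable_fst).compl
    have h2 : ∫⁻ y, (rho f l).condKernel y {x | (y, x) ∈ {p : ℝ × ℝ | f p.2 ≠ p.1}} ∂μ = 0 := by
      rw [Measure.lintegral_condKernel_mem hT, rho_apply hf hT]
      simp
    have hm2 : Measurable (fun y => (rho f l).condKernel y {x | (y, x) ∈
        {p : ℝ × ℝ | f p.2 ≠ p.1}}) :=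
      ProbabilityTheory.Kernel.measurable_kernel_prodMk_left hT
    rw [lintegral_eq_zero_iff hm2] at h2
    filter_upwards [h2] with y hy
    exact hy
  have hs : ∀ᵐ y ∂(μ.singularPart volume), DD f l univ y = ∞ := by
    have a1 := Besicovitch.ae_tendsto_rnDeriv (volume : Measure ℝ) (μ.singularPart volume)
    have a2 := (mutuallySingular_singularPart μ (volume : Measure ℝ)).symm.rnDeriv_ae_eq_zero
    filter_upwards [a1, a2] with y h3 h4
    rw [h4] at h3
    have h5 := (h3.comp tendsto_rad)
    have h6 : Tendsto (fun n : ℕ => (μ.singularPart volume) (closedBall y (1/((n:ℝ)+1))) /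
        volume (closedBall y (1/((n:ℝ)+1)))) atTop (𝓝 ∞) := by
      have h7 := (tendsto_inv_iff.2 h5)
      simp only [Pi.zero_apply, ENNReal.inv_zero] at h7
      refine h7.congr fun n => ?_
      simp only [Function.comp_apply]
      rw [ENNReal.inv_div]
      · left; exact measure_ne_top _ _
      · right
        rw [Real.volume_closedBall]
        simp only [ne_eq, ENNReal.ofReal_eq_zero, not_le]
        positivity
    unfold DD
    rw [eq_top_iff, ← h6.limsup_eq]
    refine limsup_le_limsup (Eventually.of_forall fun n => ?_)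
    simp only [univ_inter]
    rw [← fst_apply hf measurableSet_closedBall]
    gcongr
    exact singularPart_le _ _
  have z1 : ∫⁻ y, (rho f l).condKernel y N ∂(μ.singularPart volume) = 0 := by
    rw [lintegral_eq_zero_iff hmeas]
    have hfib' : ∀ᵐ y ∂(μ.singularPart volume), (rho f l).condKernel y {x | f x ≠ y} = 0 :=
      (absolutelyContinuous_of_le (singularPart_le _ _)) hfib
    filter_upwards [hfib', hs] with y h3 h4
    refine measure_mono_null ?_ h3
    intro x hx heq
    exact hfin x hx (by rw [heq]; exact h4)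
  have z2 : ∫⁻ y, (rho f l).condKernel y N ∂(volume.withDensity (μ.rnDeriv volume)) = 0 := by
    rw [lintegral_withDensity_eq_lintegral_mul _ (measurable_rnDeriv _ _) hmeas,
      lintegral_eq_zero_iff ((measurable_rnDeriv _ _).mul hmeas)]
    filter_upwards [h] with y hy
    exact hy
  rw [z1, z2, add_zero]

end

end Pool.Agent.H166R3.LN
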