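import Pool.Agent.H166R3.LN.MT1

set_option autoImplicit false

/-! Analysis in a good fibre. -/

namespace Pool.Agent.H166R3.LN

open MeasureTheory Measure Filter Topology Set Metric
open scoped ENNReal

noncomputable section

variable {f : ℝ → ℝ} {l : Measure ℝ} {S : Set ℝ}

lemma measurable_gg [IsFiniteMeasure l] (hf : Continuous f) : Measurable (gg f l) := by
  unfold gg
  refine Measurable.iInf fun i => ?_
  refine Measurable.ite ?_ ((measurable_DD hf measurableSet_Ioo).comp hf.measurable)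
    measurable_const
  exact measurableSet_Ioo (a := (i.1 : ℝ)) (b := (i.2 : ℝ))

lemma measurableSet_Xc [IsFiniteMeasure l] (hf : Continuous f) (hS : MeasurableSet S) :
    MeasurableSet (Xc f l S) := by
  unfold Xc
  refine hS.inter (MeasurableSet.inter ?_ ?_)
  · exact ((measurable_DD hf MeasurableSet.univ).comp hf.measurable)
      (measurableSet_singleton ∞).compl
  · exact (measurable_gg hf) (measurableSet_singleton 0)

lemma measurable_FF [IsFiniteMeasure l] (hf : Continuous f) (hS : MeasurableSet S) :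
    Measurable (FF f l S) := by
  unfold FF
  refine Measurable.iInf fun r => ?_
  refine Measurable.ite measurableSet_Iio
    ((measurable_DD hf ((measurableSet_Xc hf hS).inter measurableSet_Iic)).comp hf.measurable)
    measurable_const

lemma measurableSet_Cs : MeasurableSet Cs := by
  have : Cs = ⋂ n : ℕ, ⋃ j : ℕ, ⋃ _ : j < 2^n,
      Icc (ENNReal.ofReal (cc n j)) (ENNReal.ofReal (cc n j + 2 * (1/4)^n)) := by
    ext w
    simp only [Cs, mem_ofPred_eq, mem_iInter, mem_iUnion, mem_Icc, exists_prop]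
  rw [this]
  exact MeasurableSet.iInter fun n => MeasurableSet.iUnion fun j => MeasurableSet.iUnion fun _ =>
    measurableSet_Icc

lemma measurableSet_NN [IsFiniteMeasure l] (hf : Continuous f) (hS : MeasurableSet S) :
    MeasurableSet (NN f l S) :=
  (measurableSet_Xc hf hS).inter ((measurable_FF hf hS) measurableSet_Cs)

/-- the good fibres -/
structure Good (f : ℝ → ℝ) (l : Measure ℝ) [IsFiniteMeasure l] (S : Set ℝ) (y : ℝ) : Prop where
  fin : nu f l y univ ≠ ∞
  ioo : ∀ i : ℚ × ℚ, DD f l (Ioo (i.1 : ℝ) i.2) y = nu f l y (Ioo (i.1 : ℝ) i.2)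
  un : DD f l univ y = nu f l y univ
  iic : ∀ r : ℚ, DD f l (Xc f l S ∩ Iic (r : ℝ)) y = nu f l y (Xc f l S ∩ Iic (r : ℝ))
  fib : nu f l y {x | f x ≠ y} = 0
  sup : nu f l y Sᶜ = 0

lemma good_ae [IsFiniteMeasure l] (hf : Continuous f) (hS : MeasurableSet S) (hl : l Sᶜ = 0) :
    ∀ᵐ y ∂(volume : Measure ℝ), Good f l S y := by
  have e1 : ∀ᵐ y ∂(volume : Measure ℝ), nu f l y univ ≠ ∞ := by
    filter_upwards [rnDeriv_lt_top (rho f l).fst (volume : Measure ℝ)] with y hy
    rw [nu_univ]; exact hy.ne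
  have e2 : ∀ᵐ y ∂(volume : Measure ℝ), ∀ i : ℚ × ℚ,
      DD f l (Ioo (i.1 : ℝ) i.2) y = nu f l y (Ioo (i.1 : ℝ) i.2) :=
    ae_all_iff.2 fun i => DD_ae hf measurableSet_Ioo
  have e3 : ∀ᵐ y ∂(volume : Measure ℝ), DD f l univ y = nu f l y univ :=
    DD_ae hf MeasurableSet.univ
  have e4 : ∀ᵐ y ∂(volume : Measure ℝ), ∀ r : ℚ,
      DD f l (Xc f l S ∩ Iic (r : ℝ)) y = nu f l y (Xc f l S ∩ Iic (r : ℝ)) :=
    ae_all_iff.2 fun r => DD_ae hf ((measurableSet_Xc hf hS).inter measurableSet_Iic)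
  have hT : MeasurableSet {p : ℝ × ℝ | f p.2 ≠ p.1} :=
    (measurableSet_eq_fun (hf.measurable.comp measurable_snd) measurable_fst).compl
  have e5 := nu_null (f := f) (l := l) hT (by rw [rho_apply hf hT]; simp)
  have hT2 : MeasurableSet {p : ℝ × ℝ | p.2 ∈ Sᶜ} := measurable_snd hS.compl
  have e6 := nu_null (f := f) (l := l) hT2 (by
    rw [rho_apply hf hT2]
    exact hl)
  filter_upwards [e1, e2, e3, e4, e5, e6] with y h1 h2 h3 h4 h5 h6
  exact ⟨h1, h2, h3, h4, h5, h6⟩

lemma Good.finite [IsFiniteMeasure l] {y : ℝ} (h : Good f l S y) :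
    IsFiniteMeasure (nu f l y) := ⟨lt_top_iff_ne_top.2 h.fin⟩

lemma Good.gg_eq [IsFiniteMeasure l] {y : ℝ} (h : Good f l S y) {x : ℝ} (hx : f x = y) :
    gg f l x = nu f l y {x} := by
  have := h.finite
  apply le_antisymm
  · refine le_of_forall_gt fun c hc => ?_
    obtain ⟨U, hU, hUo, hUc⟩ := Set.exists_isOpen_lt_of_lt {x} c hc
    obtain ⟨ε, hε, hb⟩ := Metric.isOpen_iff.1 hUo x (hU rfl)
    obtain ⟨p, hp1, hp2⟩ := exists_rat_btwn (show x - ε < x by linarith)
    obtain ⟨q, hq1, hq2⟩ := exists_rat_btwn (show x < x + ε by linarith)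
    unfold gg
    refine lt_of_le_of_lt (iInf_le _ (p, q)) ?_
    rw [if_pos ⟨hp2, hq1⟩, hx, h.ioo (p, q)]
    refine lt_of_le_of_lt (measure_mono ?_) hUc
    refine subset_trans ?_ hb
    rw [Real.ball_eq_Ioo]
    exact Ioo_subset_Ioo hp1.le hq2.le
  · unfold gg
    refine le_iInf fun i => ?_
    split_ifs with hi
    · rw [hx, h.ioo i]
      exact measure_mono (singleton_subset_iff.2 hi)
    · exact le_top

lemma Good.FF_eq [IsFiniteMeasure l] (hf : Continuous f) (hS : MeasurableSet S) {y : ℝ}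
    (h : Good f l S y) {x : ℝ} (hx : f x = y) :
    FF f l S x = nu f l y (Xc f l S ∩ Iic x) := by
  have := h.finite
  have hXc := measurableSet_Xc (l := l) hf hS
  apply le_antisymm
  · refine le_of_forall_gt fun c hc => ?_
    have hc' : ((nu f l y).restrict (Xc f l S)) (Iic x) < c := by
      rw [Measure.restrict_apply measurableSet_Iic, inter_comm]; exact hc
    obtain ⟨U, hU, hUo, hUc⟩ := Set.exists_isOpen_lt_of_lt (Iic x) c hc'
    obtain ⟨ε, hε, hb⟩ := Metric.isOpen_iff.1 hUo x (hU (mem_Iic.2 le_rfl))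
    obtain ⟨q, hq1, hq2⟩ := exists_rat_btwn (show x < x + ε by linarith)
    unfold FF
    refine lt_of_le_of_lt (iInf_le _ q) ?_
    rw [if_pos hq1, hx, h.iic q]
    have h1 : nu f l y (Xc f l S ∩ Iic (q : ℝ)) =
        ((nu f l y).restrict (Xc f l S)) (Iic (q : ℝ)) := by
      rw [Measure.restrict_apply measurableSet_Iic, inter_comm]
    rw [h1]
    refine lt_of_le_of_lt (measure_mono ?_) hUc
    intro z hz
    rcases le_or_gt z x with hzx | hzx
    · exact hU hzx
    · apply hb
      rw [Real.ball_eq_Ioo]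
      exact ⟨by linarith, lt_of_le_of_lt hz hq2⟩
  · unfold FF
    refine le_iInf fun r => ?_
    split_ifs with hr
    · rw [hx, h.iic r]
      exact measure_mono (inter_subset_inter_right _ (Iic_subset_Iic.2 hr.le))
    · exact le_top

/-- strips of the distribution function -/
lemma cdf_strip (ν : Measure ℝ) [IsFiniteMeasure ν] (hat : ∀ x, ν {x} = 0) (a b : ℝ≥0∞) :
    ν {x | a ≤ ν (Iic x) ∧ ν (Iic x) ≤ b} ≤ b - a := by
  have hmono : Monotone (fun x => ν (Iic x)) := fun x y h => measure_mono (Iic_subset_Iic.2 h)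
  have hT : MeasurableSet {x | a ≤ ν (Iic x) ∧ ν (Iic x) ≤ b} := by
    apply OrdConnected.measurableSet
    constructor
    intro x hx y hy z hz
    exact ⟨hx.1.trans (hmono hz.1), (hmono hz.2).trans hy.2⟩
  rw [hT.measure_eq_iSup_isCompact]
  refine iSup₂_le fun K hK => iSup_le fun hKc => ?_
  rcases K.eq_empty_or_nonempty with hne | hne
  · rw [hne]; simp
  · have hs := hKc.sInf_mem hne
    have ht := hKc.sSup_mem hne
    set s := sInf K
    set t := sSup K
    have hsub : K ⊆ Icc s t := fun x hx => ⟨csInf_le hKc.bddBelow hx, le_csSup hKc.bddAbove hx⟩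
    have hst : s ≤ t := (hsub hs).2
    have h1 : ν (Iic t) = ν (Iio s) + ν (Icc s t) := by
      rw [← measure_union _ measurableSet_Icc]
      · congr 1
        ext x
        simp only [mem_Iic, mem_union, mem_Iio, mem_Icc]
        constructor
        · intro h
          rcases lt_or_ge x s with h2 | h2
          · exact Or.inl h2
          · exact Or.inr ⟨h2, h⟩
        · rintro (h | h)
          · exact h.le.trans hst
          · exact h.2
      · rw [Set.disjoint_left]
        intro x hx hx2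
        exact absurd hx2.1 (not_le.2 hx)
    have h2 : ν (Iic s) = ν (Iio s) := by
      rw [← Iio_union_right, measure_union _ (measurableSet_singleton s), hat s, add_zero]
      simp
    calc ν K ≤ ν (Icc s t) := measure_mono hsub
      _ = ν (Iic t) - ν (Iic s) := by
          rw [h1, h2, ENNReal.add_sub_cancel_left (measure_ne_top _ _)]
      _ ≤ b - a := tsub_le_tsub (hK ht).2 (hK hs).1

lemma cdf_null (ν : Measure ℝ) [IsFiniteMeasure ν] (hat : ∀ x, ν {x} = 0) :
    ν {x | ν (Iic x) ∈ Cs} = 0 := by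
  have key : ∀ n : ℕ, ν {x | ν (Iic x) ∈ Cs} ≤ ENNReal.ofReal (2 * (1/2)^n) := by
    intro n
    have hsub : {x | ν (Iic x) ∈ Cs} ⊆ ⋃ j ∈ Finset.range (2^n),
        {x | ENNReal.ofReal (cc n j) ≤ ν (Iic x) ∧
          ν (Iic x) ≤ ENNReal.ofReal (cc n j + 2 * (1/4)^n)} := by
      intro x hx
      obtain ⟨j, hj, h⟩ := hx n
      simp only [mem_iUnion, Finset.mem_range]
      exact ⟨j, hj, h⟩
    refine (measure_mono hsub).trans ((measure_biUnion_finset_le _ _).trans ?_)
    have hcc : ∀ j, 0 ≤ cc n j := fun j => Finset.sum_nonneg fun i _ => by positivity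
    calc ∑ j ∈ Finset.range (2^n), ν {x | ENNReal.ofReal (cc n j) ≤ ν (Iic x) ∧
          ν (Iic x) ≤ ENNReal.ofReal (cc n j + 2 * (1/4)^n)}
        ≤ ∑ j ∈ Finset.range (2^n), ENNReal.ofReal (2 * (1/4)^n) := by
          refine Finset.sum_le_sum fun j _ => (cdf_strip ν hat _ _).trans ?_
          rw [← ENNReal.ofReal_sub _ (hcc j)]
          apply ENNReal.ofReal_le_ofReal
          linarith
      _ = ENNReal.ofReal (2 * (1/2)^n) := by
          rw [Finset.sum_const, Finset.card_range, nsmul_eq_mul]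
          rw [← ENNReal.ofReal_natCast, ← ENNReal.ofReal_mul (by positivity)]
          congr 1
          push_cast
          rw [show (2:ℝ)^n * (2 * (1/4)^n) = 2 * (2^n * (1/4)^n) by ring, ← mul_pow]
          norm_num
  refine le_antisymm ?_ bot_le
  refine ge_of_tendsto' (f := fun n : ℕ => ENNReal.ofReal (2 * (1/2)^n)) (x := atTop) ?_ key
  rw [← ENNReal.ofReal_zero]
  apply ENNReal.tendsto_ofReal
  have := (tendsto_pow_atTop_nhds_zero_of_lt_one (r := (1/2:ℝ)) (by norm_num) (by norm_num))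
  simpa using this.const_mul 2

/-- the diffuse part of the fibre measure -/
def nuc (f : ℝ → ℝ) (l : Measure ℝ) [IsFiniteMeasure l] (S : Set ℝ) (y : ℝ) : Measure ℝ :=
  (nu f l y).restrict (Xc f l S ∩ f ⁻¹' {y})

lemma Good.nuc_atom [IsFiniteMeasure l] {y : ℝ} (h : Good f l S y) (x : ℝ) :
    nuc f l S y {x} = 0 := by
  unfold nuc
  rw [Measure.restrict_apply (measurableSet_singleton x)]
  by_cases hx : x ∈ Xc f l S ∩ f ⁻¹' {y}
  · refine measure_mono_null inter_subset_left ?_
    rw [← h.gg_eq hx.2]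
    exact hx.1.2.2
  · rw [singleton_inter_eq_empty.2 hx]; simp

lemma Good.nuc_iic [IsFiniteMeasure l] {y : ℝ} (h : Good f l S y) (x : ℝ) :
    nuc f l S y (Iic x) = nu f l y (Xc f l S ∩ Iic x) := by
  unfold nuc
  rw [Measure.restrict_apply measurableSet_Iic]
  apply le_antisymm
  · exact measure_mono fun z hz => ⟨hz.2.1, hz.1⟩
  · have h1 : Xc f l S ∩ Iic x ⊆ (Iic x ∩ (Xc f l S ∩ f ⁻¹' {y})) ∪ {z | f z ≠ y} := by
      intro z hz
      by_cases hzy : f z = y
      · exact Or.inl ⟨hz.2, hz.1, hzy⟩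
      · exact Or.inr hzy
    refine (measure_mono h1).trans ((measure_union_le _ _).trans ?_)
    rw [h.fib, add_zero]

lemma Good.NN_null [IsFiniteMeasure l] (hf : Continuous f) (hS : MeasurableSet S) {y : ℝ}
    (h : Good f l S y) : nu f l y (NN f l S) = 0 := by
  have := h.finite
  have hfin : IsFiniteMeasure (nuc f l S y) := by unfold nuc; infer_instance
  have h1 := cdf_null (nuc f l S y) h.nuc_atom
  have hmeas : MeasurableSet (Xc f l S ∩ f ⁻¹' {y}) :=
    (measurableSet_Xc hf hS).inter (hf.measurable (measurableSet_singleton y))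
  have h2 : NN f l S ⊆ ({x | nuc f l S y (Iic x) ∈ Cs} ∩ (Xc f l S ∩ f ⁻¹' {y})) ∪
      {x | f x ≠ y} := by
    intro x hx
    by_cases hxy : f x = y
    · left
      refine ⟨?_, hx.1, hxy⟩
      show nuc f l S y (Iic x) ∈ Cs
      rw [h.nuc_iic, ← h.FF_eq hf hS hxy]
      exact hx.2
    · exact Or.inr hxy
  refine measure_mono_null h2 ?_
  rw [measure_union_null_iff]
  refine ⟨?_, h.fib⟩
  unfold nuc at h1
  rwa [Measure.restrict_apply' hmeas] at h1

end

end Pool.Agent.H166R3.LN
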