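import Pool.Agent.H166R3.LN.Def

set_option autoImplicit false
set_option linter.unusedVariables false

/-! Reflection of hyperarithmetic randomness implies Luzin's property (N). -/

namespace Pool.Agent.H166R3.LN

open Pool.Agent.Helper743 (RecT pre join)
open Pool.Agent.H166R3.HD
open MeasureTheory Filter Topology Set Metric
open Nat.Partrec (Code)
open scoped Classical ENNReal

/-- lightface analytic sets of reals -/
def Sigma11 (A : Set ℝ) : Prop := ∃ T : List ℕ → Bool, Computable T ∧
  ∀ (p : ℕ → ℕ) (x : ℝ), IsName p x →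
    (x ∈ A ↔ ∃ g : ℕ → ℕ, ∀ n, T ((List.range n).map (fun i => Nat.pair (p i) (g i))) = true)

/-- lightface Borel sets -/
def Delta11 (A : Set ℝ) : Prop := Sigma11 A ∧ Sigma11 Aᶜ

/-- hyperarithmetically random reals -/
def DeltaRandom (x : ℝ) : Prop := ∀ N : Set ℝ, Delta11 N → volume N = 0 → x ∉ N

/-- codes determine analytic sets -/
lemma countable_sigma : {A : Set ℝ | Sigma11 A}.Countable := by
  have h : ∀ A ∈ {A : Set ℝ | Sigma11 A}, ∃ c : Code, ∀ (p : ℕ → ℕ) (x : ℝ), IsName p x →
      (x ∈ A ↔ ∃ g : ℕ → ℕ, ∀ n, Encodable.encode true ∈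
        c.eval (Encodable.encode ((List.range n).map (fun i => Nat.pair (p i) (g i))))) := by
    rintro A ⟨T, hT, hA⟩
    obtain ⟨c, hc⟩ := Code.exists_code.1 hT
    refine ⟨c, fun p x hx => (hA p x hx).trans ?_⟩
    refine exists_congr fun g => forall_congr' fun n => ?_
    rw [hc]
    simp only [Encodable.encodek, Part.coe_some, Part.bind_some, PFun.coe_val, Part.map_some,
      Part.mem_some_iff]
    constructor
    · intro h; rw [h]
    · intro h; exact (Encodable.encode_injective h).symm
  choose! c hc using h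
  have hinj : Set.InjOn c {A : Set ℝ | Sigma11 A} := by
    intro A hA B hB hAB
    ext x
    obtain ⟨p, hp⟩ := exists_name x
    have hx : IsName p x := fun n => (hp n).le
    rw [hc A hA p x hx, hc B hB p x hx, hAB]
  exact (Set.mapsTo_univ c {A : Set ℝ | Sigma11 A}).countable_of_injOn hinj Set.countable_univ

lemma null_nonrandom : volume {y : ℝ | ¬ DeltaRandom y} = 0 := by
  have hc : {A : Set ℝ | Delta11 A ∧ volume A = 0}.Countable :=
    countable_sigma.mono fun A hA => hA.1.1
  have hsub : {y : ℝ | ¬ DeltaRandom y} ⊆ ⋃ A ∈ {A : Set ℝ | Delta11 A ∧ volume A = 0}, A := by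
    intro y hy
    simp only [DeltaRandom, mem_ofPred_eq, not_forall, not_not] at hy
    obtain ⟨N, h1, h2, h3⟩ := hy
    exact mem_biUnion (x := N) ⟨h1, h2⟩ h3
  exact measure_mono_null hsub ((measure_biUnion_null_iff hc).2 fun A hA => hA.2)

lemma recT_computable {f : ℕ → ℕ} (hf : RecT ∅ f) : Computable f := by
  have h : Nat.Partrec (fun n => Part.some (f n)) :=
    Nat.RecursiveIn.partrec_of_oracle (O := ∅) (by simp) hf
  exact Partrec.nat_iff.2 h

/-- from the calculus to the definition -/
lemma sigma11_of {P : ℕ → ℝ → Prop} (h : Sig (NR P)) : Sigma11 {x | P 0 x} := by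
  obtain ⟨r, hr, hP⟩ := h
  let len : ℕ → ℕ := fun s => ((Encodable.decode (α := List ℕ) s).getD []).length
  have hlen : RecT ∅ len := by
    refine recT_prim ?_
    exact Primrec.list_length.comp (Primrec.option_getD.comp Primrec.decode (Primrec.const []))
  let r' : ℕ → Prop := fun s => r (KK 0 (len s) (mk (len s) (fun i => (lget s i).unpair.1))
    (mk (len s) (fun i => (lget s i).unpair.2)))
  have hr' : RP ∅ r' := by
    refine RP.comp hr (RecT.KK (recT_const 0) hlen ?_ ?_)
    · refine RecT.congr (RecT.mk (H := fun w => (lget w.unpair.1 w.unpair.2).unpair.1) hlen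
        (RecT.fst (RecT.lget (RecT.fst recT_id) (RecT.snd recT_id)))) (fun z => by simp)
    · refine RecT.congr (RecT.mk (H := fun w => (lget w.unpair.1 w.unpair.2).unpair.2) hlen
        (RecT.snd (RecT.lget (RecT.fst recT_id) (RecT.snd recT_id)))) (fun z => by simp)
  have hc : Computable (fun n => if r' n then 1 else 0) := recT_computable hr'
  refine ⟨fun L => Nat.bodd (if r' (Encodable.encode L) then 1 else 0), ?_, fun p x hx => ?_⟩
  · exact Primrec.nat_bodd.to_comp.comp (hc.comp Computable.encode)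
  · have h1 : (x ∈ {x | P 0 x}) ↔ NR P 0 p := (NR_iff hx 0).symm
    rw [h1, hP]
    refine exists_congr fun g => forall_congr' fun n => ?_
    have h2 : Encodable.encode ((List.range n).map (fun i => Nat.pair (p i) (g i))) =
        mk n (fun i => Nat.pair (p i) (g i)) := rfl
    have h3 : len (mk n (fun i => Nat.pair (p i) (g i))) = n := by
      simp only [len, mk, Encodable.encodek, Option.getD_some, List.length_map, List.length_range]
    have h4 : r' (mk n (fun i => Nat.pair (p i) (g i))) ↔ r (KK 0 n (mk n p) (mk n g)) := by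
      simp only [r', h3]
      have e1 : mk n (fun i => (lget (mk n (fun i => Nat.pair (p i) (g i))) i).unpair.1) = mk n p :=
        mk_congr fun i hi => by rw [lget_mk hi]; simp
      have e2 : mk n (fun i => (lget (mk n (fun i => Nat.pair (p i) (g i))) i).unpair.2) = mk n g :=
        mk_congr fun i hi => by rw [lget_mk hi]; simp
      rw [e1, e2]
    beta_reduce
    rw [h2]
    by_cases h5 : r' (mk n (fun i => Nat.pair (p i) (g i)))
    · simp only [h5, if_true]
      exact ⟨fun _ => rfl, fun _ => h4.1 h5⟩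
    · simp only [h5, if_false]
      constructor
      · intro h6; exact absurd (h4.2 h6) h5
      · intro h6; simp at h6

lemma delta11_of {P : ℕ → ℝ → Prop} (h : DelR P) : Delta11 {x | P 0 x} :=
  ⟨sigma11_of h.1, sigma11_of h.not.1⟩

theorem main {f : ℝ → ℝ} (hf : CompF f) (hr : ∀ x, DeltaRandom (f x) → DeltaRandom x)
    {A : Set ℝ} (hA : volume A = 0) : volume (f '' A) = 0 := by
  have hfc := hf.continuous
  have key : ∀ k0 : ℤ, volume (f '' (A ∩ Icc (k0:ℝ) (k0+1))) = 0 := by
    intro k0
    have hS : ll k0 (Icc (k0:ℝ) (k0+1))ᶜ = 0 := by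
      unfold ll
      rw [Measure.restrict_apply' measurableSet_Icc, compl_inter_self, measure_empty]
    have hN0 : volume (NN f (ll k0) (Icc (k0:ℝ) (k0+1))) = 0 := by
      have h1 := NN_null (l := ll k0) hfc isClosed_Icc hS
      have h2 : NN f (ll k0) (Icc (k0:ℝ) (k0+1)) ∩ Icc (k0:ℝ) (k0+1) =
          NN f (ll k0) (Icc (k0:ℝ) (k0+1)) :=
        inter_eq_left.2 fun x hx => hx.1.1
      rw [← h2]
      rw [ll, Measure.restrict_apply' measurableSet_Icc] at h1
      exact h1
    have hD : Delta11 (NN f (ll k0) (Icc (k0:ℝ) (k0+1))) := delta11_of (delR_NN hf k0)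
    have hN : volume (f '' NN f (ll k0) (Icc (k0:ℝ) (k0+1))) = 0 := by
      refine measure_mono_null ?_ null_nonrandom
      rintro _ ⟨x, hx, rfl⟩ hrand
      exact hr x hrand _ hD hN0 hx
    refine luzin (l := ll k0) hfc isClosed_Icc hS hN inter_subset_right ?_
    have h1 : volume (A ∩ Icc (k0:ℝ) (k0+1)) = 0 := measure_mono_null inter_subset_left hA
    exact Measure.absolutelyContinuous_of_le Measure.restrict_le_self h1
  have hU : f '' A ⊆ ⋃ k0 : ℤ, f '' (A ∩ Icc (k0:ℝ) (k0+1)) := by
    rintro _ ⟨x, hx, rfl⟩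
    rw [mem_iUnion]
    exact ⟨⌊x⌋, x, ⟨hx, Int.floor_le x, (Int.lt_floor_add_one x).le⟩, rfl⟩
  exact measure_mono_null hU (measure_iUnion_null key)

end Pool.Agent.H166R3.LN
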